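import Pool.Agent.H668R3.LLM.ZP

/-! The ambient data and the first steps -/

set_option autoImplicit false

open Filter Topology Finset

noncomputable section

namespace Pool.Agent.H668R3.LLM

instance nsT {B : Type*} [NonUnitalCStarAlgebra B] (T : NonUnitalSubalgebra ℂ B) :
    NormedSpace ℂ T where
  norm_smul_le r t := norm_smul_le r (t : B)

/-- ambient data -/
structure Amb (B : Type*) [CStarAlgebra B] where
  A : NonUnitalStarSubalgebra ℂ B
  X : Submodule ℂ B
  T : NonUnitalSubalgebra ℂ B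
  clA : IsClosed (A : Set B)
  clX : IsClosed (X : Set B)
  clT : IsClosed (T : Set B)
  AT : ∀ a ∈ A, a ∈ T
  XT : ∀ x ∈ X, x ∈ T
  XX : ∀ x ∈ X, ∀ y ∈ X, star x * y ∈ A
  AX : ∀ a ∈ A, ∀ x ∈ X, a * x ∈ X
  XA : ∀ x ∈ X, ∀ a ∈ A, x * a ∈ X
  gen : ∀ T' : NonUnitalSubalgebra ℂ B, IsClosed (T' : Set B) → (∀ a ∈ A, a ∈ T') →
    (∀ x ∈ X, x ∈ T') → ∀ t ∈ T, t ∈ T'

variable {B : Type*} [CStarAlgebra B] (D : Amb B)

/-- approximate unit of `A`, as a filter on `B` -/
lemma exists_au : ∃ l : Filter B, l.NeBot ∧ (∀ᶠ e in l, e ∈ D.A) ∧ (∀ᶠ e in l, ‖e‖ ≤ 1) ∧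
    ∀ t ∈ D.T, Tendsto (fun e => t * e) l (𝓝 t) := by
  have := D.clA
  let := CStarAlgebra.spectralOrder D.A
  have := CStarAlgebra.spectralOrderedRing D.A
  have hau := CStarAlgebra.increasingApproximateUnit (A := D.A)
  let l : Filter B := Filter.map (Subtype.val : D.A → B) (CStarAlgebra.approximateUnit D.A)
  have hl0 : l.NeBot := inferInstance
  have hlA : ∀ᶠ e in l, e ∈ D.A := by
    rw [Filter.eventually_map]
    exact Filter.Eventually.of_forall fun e => e.2
  have hl1 : ∀ᶠ e in l, ‖e‖ ≤ 1 := by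
    rw [Filter.eventually_map]
    exact hau.eventually_norm
  have hA : ∀ a ∈ D.A, Tendsto (fun e => a * e) l (𝓝 a) := by
    intro a ha
    rw [Filter.tendsto_map'_iff]
    have h1 := hau.tendsto_mul_left ⟨a, ha⟩
    exact (continuous_subtype_val.tendsto _).comp h1
  refine ⟨l, hl0, hlA, hl1, ?_⟩
  let T' : NonUnitalSubalgebra ℂ B :=
    { carrier := {t | Tendsto (fun e => t * e) l (𝓝 t)}
      mul_mem' := by
        intro s t hs ht
        have := ht.const_mul s
        simpa only [Set.mem_ofPred_eq, mul_assoc] using this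
      add_mem' := by
        intro s t hs ht
        have := Tendsto.add hs ht
        simpa only [Set.mem_ofPred_eq, add_mul] using this
      zero_mem' := by
        simp only [Set.mem_ofPred_eq, zero_mul]
        exact tendsto_const_nhds
      smul_mem' := by
        intro r t ht
        have := Tendsto.const_smul ht r
        simpa only [Set.mem_ofPred_eq, smul_mul_assoc] using this }
  have hT'cl : IsClosed (T' : Set B) := by
    apply isClosed_of_closure_subset
    intro t ht
    change Tendsto (fun e => t * e) l (𝓝 t)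
    rw [Metric.tendsto_nhds]
    intro ε hε
    obtain ⟨s, hs, hst⟩ := Metric.mem_closure_iff.1 ht (ε / 3) (by positivity)
    have hs' : Tendsto (fun e => s * e) l (𝓝 s) := hs
    rw [Metric.tendsto_nhds] at hs'
    filter_upwards [hs' (ε / 3) (by positivity), hl1] with e he1 he2
    rw [dist_eq_norm] at *
    have : t * e - t = (t - s) * e + (s * e - s) - (t - s) := by noncomm_ring
    rw [this]
    calc ‖(t - s) * e + (s * e - s) - (t - s)‖
        ≤ ‖(t - s) * e‖ + ‖s * e - s‖ + ‖t - s‖ :=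
          (norm_sub_le _ _).trans (add_le_add_left (norm_add_le _ _) _)
      _ < ε / 3 + ε / 3 + ε / 3 := by
          have h1 : ‖(t - s) * e‖ ≤ ‖t - s‖ := by
            refine (norm_mul_le _ _).trans ?_
            nlinarith [norm_nonneg (t - s)]
          linarith
      _ = ε := by ring
  apply D.gen T' hT'cl hA
  intro x hx
  change Tendsto (fun e => x * e) l (𝓝 x)
  rw [tendsto_iff_norm_sub_tendsto_zero]
  have hb := hA _ (D.XX x hx x hx)
  rw [tendsto_iff_norm_sub_tendsto_zero] at hb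
  have hb2 : Tendsto (fun e => √(2 * ‖star x * x * e - star x * x‖)) l (𝓝 0) := by
    have := (hb.const_mul 2).sqrt
    simpa using this
  apply squeeze_zero' (Filter.Eventually.of_forall fun _ => norm_nonneg _) _ hb2
  filter_upwards [hl1] with e he
  apply Real.le_sqrt_of_sq_le
  rw [sq, ← CStarRing.norm_star_mul_self]
  have : star (x * e - x) * (x * e - x) = (star e - 1) * (star x * x * e - star x * x) := by
    rw [star_sub, star_mul]; noncomm_ring
  rw [this]
  refine (norm_mul_le _ _).trans ?_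
  gcongr
  rcases subsingleton_or_nontrivial B with hB | hB
  · rw [Subsingleton.elim (star e - 1) 0, norm_zero]; norm_num
  · calc ‖star e - 1‖ ≤ ‖star e‖ + ‖(1 : B)‖ := norm_sub_le _ _
      _ ≤ 1 + 1 := by rw [norm_star, norm_one]; linarith
      _ = 2 := by norm_num

/-- the inclusion of `A` in `T` -/
def iA : D.A →ₗ[ℂ] D.T where
  toFun a := ⟨a, D.AT a a.2⟩
  map_add' _ _ := rfl
  map_smul' _ _ := rfl

@[simp] lemma iA_coe (a : D.A) : ((iA D a : D.T) : B) = a := rfl

/-- approximately local left multipliers -/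
def ALM (S : D.T →L[ℂ] D.T) : Prop := ∀ a : D.T, S a ∈ closure {w : D.T | ∃ x : D.T, w = x * a}

variable {D} {S : D.T →L[ℂ] D.T}

lemma S_zero (hS : ALM D S) (a : D.T) (y : B) (h : (a : B) * y = 0) : (S a : B) * y = 0 := by
  have hcl : IsClosed {w : D.T | (w : B) * y = 0} :=
    isClosed_eq (by fun_prop) continuous_const
  have : closure {w : D.T | ∃ x : D.T, w = x * a} ⊆ {w : D.T | (w : B) * y = 0} := by
    apply closure_minimal _ hcl
    rintro w ⟨x, rfl⟩
    change ((x : B) * (a : B)) * y = 0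
    rw [mul_assoc, h, mul_zero]
  exact this (hS a)

/-- two elements of `T` agree if they agree after multiplication by all of `A` -/
lemma T_ext {s t : D.T} (h : ∀ c ∈ D.A, (s : B) * c = t * c) : s = t := by
  obtain ⟨l, hl0, hlA, hl1, hlt⟩ := exists_au D
  apply Subtype.ext
  have h1 := hlt s s.2
  have h2 := hlt t t.2
  refine tendsto_nhds_unique h1 (h2.congr' ?_)
  filter_upwards [hlA] with e he
  exact (h e he).symm

lemma S_bound (S : D.T →L[ℂ] D.T) (a : D.T) : ‖(S a : B)‖ ≤ ‖S‖ * ‖(a : B)‖ := S.le_opNorm a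

/-- the form `(b, c) ↦ S (a b) c` -/
def psiS (S : D.T →L[ℂ] D.T) (a : D.T) : D.A →ₗ[ℂ] D.A →ₗ[ℂ] B :=
  LinearMap.mk₂ ℂ (fun b c => (S (a * iA D b) : B) * c)
    (by intro p p' q; rw [map_add, mul_add, map_add]; exact add_mul _ _ _)
    (by intro r p q; rw [map_smul, mul_smul_comm, map_smul]; exact smul_mul_assoc _ _ _)
    (by intro p q q'; exact mul_add _ _ _)
    (by intro r p q; exact mul_smul_comm _ _ _)

/-- maps respecting zero products with elements of `A` -/
def ZL (S : D.T →L[ℂ] D.T) : Prop :=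
  ∀ (a : D.T) (y : B), y ∈ D.A → (a : B) * y = 0 → (S a : B) * y = 0

lemma ALM.zl (hS : ALM D S) : ZL S := fun a y _ h => S_zero hS a y h

lemma S_A1 (hS : ZL S) (a : D.T) (b c d : D.A) :
    (S (a * iA D (b * d)) : B) * c = (S (a * iA D b) : B) * (d * c) := by
  apply zp D.A D.clA (psiS S a) (‖S‖ * ‖(a : B)‖)
  · intro b c
    change ‖(S (a * iA D b) : B) * c‖ ≤ _
    refine (norm_mul_le _ _).trans ?_
    have h1 : ‖(S (a * iA D b) : B)‖ ≤ ‖S‖ * ‖(a : B)‖ * ‖b‖ := by
      refine (S_bound S _).trans ?_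
      rw [mul_assoc]
      exact mul_le_mul_of_nonneg_left (norm_mul_le _ _) (ContinuousLinearMap.opNorm_nonneg S)
    exact mul_le_mul_of_nonneg_right h1 (norm_nonneg _)
  · intro b c hbc
    apply hS _ _ c.2
    change ((a : B) * (b : B)) * (c : B) = 0
    rw [mul_assoc]
    have : (b : B) * (c : B) = 0 := congrArg Subtype.val hbc
    rw [this, mul_zero]

/-- `S` is `A`-linear -/
lemma S_A (hS : ZL S) (a d : D.T) (hd : (d : B) ∈ D.A) : S (a * d) = S a * d := by
  apply T_ext
  intro c hc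
  obtain ⟨l, hl0, hlA, hl1, hlt⟩ := exists_au D
  -- use `b = e`
  have h1 := hlt a a.2
  have key : ∀ᶠ e in l, ∃ he : e ∈ D.T, (S (a * ⟨e, he⟩ * d) : B) * c =
      (S (a * ⟨e, he⟩) : B) * (d * c) := by
    filter_upwards [hlA] with e he
    refine ⟨D.AT e he, ?_⟩
    have := S_A1 hS a ⟨e, he⟩ ⟨c, hc⟩ ⟨d, hd⟩
    rw [mul_assoc]
    exact this
  have hb : ∀ᶠ e in l, ‖(S (a * d) : B) * c - (S a : B) * (d * c)‖ ≤
      ‖S‖ * ‖(a : B) - a * e‖ * ‖(d : B)‖ * ‖c‖ + ‖S‖ * ‖(a : B) - a * e‖ * (‖(d : B)‖ * ‖c‖) := by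
    filter_upwards [key] with e ⟨he, hk⟩
    have e1 : (S (a * d) : B) * c - (S a : B) * (d * c) =
        (S ((a - a * ⟨e, he⟩) * d) : B) * c - (S (a - a * ⟨e, he⟩) : B) * (d * c) := by
      rw [sub_mul, map_sub, map_sub]
      change _ = ((S (a * d) : B) - (S (a * ⟨e, he⟩ * d) : B)) * c -
        ((S a : B) - (S (a * ⟨e, he⟩) : B)) * (d * c)
      rw [sub_mul, sub_mul, hk]
      abel
    rw [e1]
    refine (norm_sub_le _ _).trans (add_le_add ?_ ?_)
    · refine (norm_mul_le _ _).trans (mul_le_mul_of_nonneg_right ?_ (norm_nonneg _))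
      refine (S_bound S _).trans ?_
      rw [mul_assoc]
      exact mul_le_mul_of_nonneg_left (norm_mul_le _ _) (ContinuousLinearMap.opNorm_nonneg S)
    · refine (norm_mul_le _ _).trans (mul_le_mul ?_ (norm_mul_le _ _) (norm_nonneg _) ?_)
      · exact S_bound S _
      · positivity
  have hlim : Tendsto (fun e => ‖S‖ * ‖(a : B) - a * e‖ * ‖(d : B)‖ * ‖c‖ +
      ‖S‖ * ‖(a : B) - a * e‖ * (‖(d : B)‖ * ‖c‖)) l (𝓝 0) := by
    have h2 : Tendsto (fun e => ‖(a : B) - a * e‖) l (𝓝 0) := by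
      have := (tendsto_const_nhds (x := (a : B))).sub h1
      simpa using this.norm
    have := (((h2.const_mul ‖S‖).mul_const ‖(d : B)‖).mul_const ‖c‖).add
      ((h2.const_mul ‖S‖).mul_const (‖(d : B)‖ * ‖c‖))
    simpa using this
  have h0 := ge_of_tendsto hlim hb
  have h0' := norm_le_zero_iff.1 h0
  rw [sub_eq_zero] at h0'
  rw [h0']
  change _ = ((S a : B) * (d : B)) * c
  rw [mul_assoc]

end Pool.Agent.H668R3.LLM
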