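import Pool.Agent.H668R3.LLM.Step

/-! Existence of a character -/

set_option autoImplicit false

open Filter Topology Finset

noncomputable section

namespace Pool.Agent.H668R3.LLM

variable {B : Type*} [CStarAlgebra B]

/-- a closed commutative unital star subalgebra has a character not vanishing at a given
non-zero element -/
lemma exists_char (C : StarSubalgebra ℂ B) (hC : IsClosed (C : Set B))
    (hcomm : ∀ x ∈ C, ∀ y ∈ C, x * y = y * x) (x : C) (hx : x ≠ 0) :
    ∃ ω : C →⋆ₐ[ℂ] ℂ, ω x ≠ 0 := by
  let inst : CommCStarAlgebra C :=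
    { StarSubalgebra.cstarAlgebra C with
      mul_comm := fun a b => Subtype.ext (hcomm a a.2 b b.2) }
  have h1 : WeakDual.gelfandTransform ℂ C x ≠ 0 := by
    intro h0
    apply hx
    have := (gelfandTransform_isometry C).injective
    exact this (by rw [h0, map_zero])
  have h2 : ∃ φ : WeakDual.characterSpace ℂ C, WeakDual.gelfandTransform ℂ C x φ ≠ 0 := by
    by_contra hno
    push Not at hno
    exact h1 (ContinuousMap.ext hno)
  obtain ⟨φ, hφ⟩ := h2
  refine ⟨{ WeakDual.CharacterSpace.toAlgHom φ with map_star' := fun y => ?_ }, hφ⟩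
  exact map_star φ y

/-- the commutative subalgebra -/
def CC (Y : Set B) : StarSubalgebra ℂ B :=
  StarSubalgebra.centralizer ℂ (StarSubalgebra.centralizer ℂ Y : Set B)

lemma mem_CC {Y : Set B} {z : B} : z ∈ CC Y ↔
    ∀ g, (∀ y ∈ Y, y * g = g * y ∧ star y * g = g * star y) → g * z = z * g := by
  unfold CC
  rw [StarSubalgebra.mem_centralizer_iff]
  constructor
  · intro h g hg
    exact (h g (by rw [SetLike.mem_coe, StarSubalgebra.mem_centralizer_iff]; exact hg)).1
  · intro h g hg
    rw [SetLike.mem_coe, StarSubalgebra.mem_centralizer_iff] at hg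
    refine ⟨h g hg, h (star g) ?_⟩
    intro y hy
    have h1 := hg y hy
    constructor
    · have := congrArg star h1.2
      rw [star_mul, star_mul, star_star] at this
      exact this.symm
    · have := congrArg star h1.1
      rw [star_mul, star_mul] at this
      exact this.symm

lemma CC_closed (Y : Set B) : IsClosed (CC Y : Set B) := Set.isClosed_centralizer _

lemma CC_sub {Y : Set B} {z : B} (hz : z ∈ Y) : z ∈ CC Y := by
  rw [mem_CC]
  intro g hg
  exact (hg z hz).1.symm

lemma CC_comm {Y : Set B} (hY : ∀ y ∈ Y, ∀ z ∈ Y, y * z = z * y)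
    (hs : ∀ y ∈ Y, star y ∈ Y) {x y : B} (hx : x ∈ CC Y) (hy : y ∈ CC Y) : x * y = y * x := by
  rw [mem_CC] at hx hy
  have h1 : ∀ z ∈ Y, y * z = z * y := by
    intro z hz
    have := hy z (fun w hw => ⟨hY w hw z hz, hY _ (hs w hw) z hz⟩)
    exact this.symm
  have h2 := hx y (fun w hw => ⟨(h1 w hw).symm, (h1 _ (hs w hw)).symm⟩)
  exact h2.symm

variable (A : NonUnitalStarSubalgebra ℂ B)

/-- existence of the character -/
lemma exists_chi (h : A) (hh : IsSelfAdjoint h) (h0 : h ≠ 0)
    (hcd : ∀ c d : A, h * (c * d) = h * (d * c)) : ∃ χ : A →⋆ₙₐ[ℂ] ℂ, χ h ≠ 0 := by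
  have : CStarRing A := ⟨fun x => (CStarRing.norm_star_mul_self (x := (x : B))).symm.le⟩
  -- `h` is central
  have hcen : ∀ c : A, h * c = c * h := by
    intro c
    have hw : (h * c - c * h) * star (h * c - c * h) = 0 := by
      have e1 : (h * c - c * h) * star (h * c - c * h) =
          (h * ((c * star c) * h) - (h * (c * h)) * star c) -
            c * (h * (star c * h) - h * (h * star c)) := by
        rw [star_sub, star_mul, star_mul, hh.star_eq]
        noncomm_ring
      rw [e1, hcd (c * star c) h, hcd c h, hcd (star c) h]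
      noncomm_ring
    have := CStarRing.mul_star_self_eq_zero_iff _ |>.1 hw
    exact sub_eq_zero.1 this
  set Y : Set B := Set.range (fun c : A => (h : B) * (c : B)) with hYdef
  have hY : ∀ y ∈ Y, ∀ z ∈ Y, y * z = z * y := by
    rintro _ ⟨c, rfl⟩ _ ⟨d, rfl⟩
    have e : (h * c) * (h * d) = (h * d) * (h * c) := by
      calc (h * c) * (h * d) = h * ((c * h) * d) := by noncomm_ring
        _ = h * ((h * c) * d) := by rw [hcen c]
        _ = h * (h * (c * d)) := by noncomm_ring
        _ = h * (h * (d * c)) := by rw [hcd c d]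
        _ = h * ((h * d) * c) := by noncomm_ring
        _ = h * ((d * h) * c) := by rw [hcen d]
        _ = (h * d) * (h * c) := by noncomm_ring
    exact congrArg Subtype.val e
  have hYs : ∀ y ∈ Y, star y ∈ Y := by
    rintro _ ⟨c, rfl⟩
    refine ⟨star c, ?_⟩
    have : h * star c = star (h * c) := by rw [star_mul, hh.star_eq, hcen]
    exact congrArg Subtype.val this
  have hmem : ∀ c : A, ((h * c : A) : B) ∈ CC Y := fun c => CC_sub ⟨c, rfl⟩
  have hhh : (⟨((h * h : A) : B), hmem h⟩ : CC Y) ≠ 0 := by
    intro h1
    have h2 : ((h * h : A) : B) = 0 := congrArg Subtype.val h1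
    apply h0
    have h3 : h * h = 0 := Subtype.ext h2
    have h4 : star h * h = 0 := by rw [hh.star_eq]; exact h3
    exact CStarRing.star_mul_self_eq_zero_iff _ |>.1 h4
  obtain ⟨ω, hω⟩ := exists_char (CC Y) (CC_closed Y) (fun x hx y hy => CC_comm hY hYs hx hy) _ hhh
  -- the functional
  let f : A → ℂ := fun c => ω ⟨((h * (h * c) : A) : B), hmem (h * c)⟩
  set s : ℂ := ω ⟨((h * h : A) : B), hmem h⟩ with hs
  have hfadd : ∀ c d, f (c + d) = f c + f d := by
    intro c d
    change ω _ = ω _ + ω _
    rw [← map_add]
    congr 1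
    apply Subtype.ext
    change ((h * (h * (c + d)) : A) : B) = ((h * (h * c) + h * (h * d) : A) : B)
    congr 1
    noncomm_ring
  have hfsmul : ∀ (r : ℂ) c, f (r • c) = r * f c := by
    intro r c
    have e1 : (⟨((h * (h * (r • c)) : A) : B), hmem (h * (r • c))⟩ : CC Y) =
        r • ⟨((h * (h * c) : A) : B), hmem (h * c)⟩ := by
      apply Subtype.ext
      change ((h * (h * (r • c)) : A) : B) = ((r • (h * (h * c)) : A) : B)
      rw [mul_smul_comm, mul_smul_comm]
    have e2 := congrArg ω e1
    rw [map_smul] at e2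
    exact e2
  have hfmul : ∀ c d, f c * f d = s * f (c * d) := by
    intro c d
    change ω _ * ω _ = ω _ * ω _
    rw [← map_mul, ← map_mul]
    congr 1
    apply Subtype.ext
    change (((h * (h * c)) * (h * (h * d)) : A) : B) = (((h * h) * (h * (h * (c * d))) : A) : B)
    congr 1
    calc (h * (h * c)) * (h * (h * d)) = h * h * (c * h) * h * d := by noncomm_ring
      _ = h * h * (h * c) * h * d := by rw [hcen c]
      _ = h * h * h * (c * h) * d := by noncomm_ring
      _ = h * h * h * (h * c) * d := by rw [hcen c]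
      _ = (h * h) * (h * (h * (c * d))) := by noncomm_ring
  have hfstar : ∀ c, f (star c) = star (f c) := by
    intro c
    change ω _ = star (ω _)
    rw [← map_star]
    congr 1
    apply Subtype.ext
    change ((h * (h * star c) : A) : B) = ((star (h * (h * c)) : A) : B)
    congr 1
    rw [star_mul, star_mul, hh.star_eq, ← hcen (star c), ← hcen]
  have hsr : star s = s := by
    rw [hs, ← map_star]
    congr 1
    apply Subtype.ext
    change ((star (h * h) : A) : B) = ((h * h : A) : B)
    rw [star_mul, hh.star_eq]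
  refine ⟨{ toFun := fun c => f c / s
            map_smul' := ?_
            map_zero' := ?_
            map_add' := ?_
            map_mul' := ?_
            map_star' := ?_ }, ?_⟩
  · intro r c
    change f (r • c) / s = r • (f c / s)
    rw [hfsmul, smul_eq_mul, mul_div_assoc]
  · change f 0 / s = 0
    have := hfsmul 0 0
    rw [zero_smul, zero_mul] at this
    rw [this, zero_div]
  · intro c d
    change f (c + d) / s = f c / s + f d / s
    rw [hfadd, add_div]
  · intro c d
    change f (c * d) / s = f c / s * (f d / s)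
    rw [div_mul_div_comm, hfmul, mul_div_mul_left _ _ hω]
  · intro c
    change f (star c) / s = star (f c / s)
    rw [hfstar, star_div₀, hsr]
  · change f h / s ≠ 0
    apply div_ne_zero _ hω
    -- `f h = ω (h^3)`; if zero then `ω (h^3)^2 = s^3`
    intro hfh
    have h1 : f h * f h = s * (s * s) := by
      change ω _ * ω _ = ω _ * (ω _ * ω _)
      rw [← map_mul, ← map_mul, ← map_mul]
      congr 1
      apply Subtype.ext
      change (((h * (h * h)) * (h * (h * h)) : A) : B) = (((h * h) * ((h * h) * (h * h)) : A) : B)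
      congr 1
      noncomm_ring
    rw [hfh, mul_zero] at h1
    exact (mul_ne_zero hω (mul_ne_zero hω hω)) h1.symm

end Pool.Agent.H668R3.LLM
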