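import Mathlib

/-! A Riesz representation lemma for semi-inner products -/

set_option autoImplicit false

open Filter Topology Finset
open scoped InnerProductSpace

noncomputable section

namespace Pool.Agent.H668R3.LLM

theorem riesz {E : Type*} [AddCommGroup E] [Module ℂ E] (core : PreInnerProductSpace.Core ℂ E)
    (N : E → ℝ)
    (hcomp : ∀ u : ℕ → E, Summable (fun n => N (u n)) →
      ∃ x, Tendsto (fun n => N (∑ i ∈ range n, u i - x)) atTop (𝓝 0))
    (hle : ∀ x, (core.inner x x).re ≤ N x ^ 2) (hN : ∀ x, 0 ≤ N x)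
    (K : ℝ)
    (hex : ∀ x, ∃ x', N x' ≤ K * √((core.inner x x).re) ∧ (core.inner (x - x') (x - x')).re = 0)
    (ℓ : E →ₗ[ℂ] ℂ) (C : ℝ) (hℓ : ∀ x, ‖ℓ x‖ ≤ C * √((core.inner x x).re)) :
    ∃ ζ : E, ∀ x, core.inner ζ x = ℓ x := by
  let : SeminormedAddCommGroup E :=
    InnerProductSpace.Core.toSeminormedAddCommGroup (c := core)
  let : InnerProductSpace ℂ E := InnerProductSpace.ofCore core
  have hnorm : ∀ x : E, ‖x‖ = √((core.inner x x).re) := fun x => rfl
  -- completeness of the quotient
  have hQ : CompleteSpace (SeparationQuotient E) := by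
    apply NormedAddCommGroup.completeSpace_of_summable_imp_tendsto
    intro u hu
    have hch : ∀ n, ∃ x : E, SeparationQuotient.mk x = u n ∧ N x ≤ K * ‖u n‖ := by
      intro n
      obtain ⟨x, hx⟩ := SeparationQuotient.surjective_mk (u n)
      obtain ⟨x', h1, h2⟩ := hex x
      refine ⟨x', ?_, ?_⟩
      · rw [← hx, SeparationQuotient.mk_eq_mk, Metric.inseparable_iff, dist_comm, dist_eq_norm,
          hnorm, h2, Real.sqrt_zero]
      · rw [← hx, SeparationQuotient.norm_mk, hnorm]; exact h1
    choose w hw1 hw2 using hch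
    have hs : Summable (fun n => N (w n)) :=
      Summable.of_nonneg_of_le (fun n => hN _) hw2 (hu.mul_left K)
    obtain ⟨x, hx⟩ := hcomp w hs
    refine ⟨SeparationQuotient.mk x, ?_⟩
    rw [tendsto_iff_norm_sub_tendsto_zero]
    apply squeeze_zero (fun _ => norm_nonneg _) _ hx
    intro n
    have : ∑ i ∈ range n, u i = SeparationQuotient.mk (∑ i ∈ range n, w i) := by
      have h3 := map_sum (SeparationQuotient.mkAddMonoidHom (M := E)) w (range n)
      rw [SeparationQuotient.mkAddMonoidHom_apply] at h3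
      rw [h3]
      refine Finset.sum_congr rfl fun i _ => ?_
      rw [SeparationQuotient.mkAddMonoidHom_apply, hw1]
    rw [this, ← SeparationQuotient.mk_sub, SeparationQuotient.norm_mk, hnorm]
    exact Real.sqrt_le_iff.2 ⟨hN _, hle _⟩
  -- the functional on the quotient
  let L : E →L[ℂ] ℂ := ℓ.mkContinuous C (fun x => by rw [hnorm]; exact hℓ x)
  have hL : ∀ x y : E, Inseparable x y → L x = L y := by
    intro x y h
    exact (h.map L.continuous).eq
  let Lq : SeparationQuotient E →L[ℂ] ℂ := SeparationQuotient.liftCLM L hL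
  obtain ⟨ζ, hζ⟩ := SeparationQuotient.surjective_mk ((InnerProductSpace.toDual ℂ _).symm Lq)
  refine ⟨ζ, fun x => ?_⟩
  have h1 : ⟪(InnerProductSpace.toDual ℂ (SeparationQuotient E)).symm Lq,
      SeparationQuotient.mk x⟫_ℂ = Lq (SeparationQuotient.mk x) :=
    InnerProductSpace.toDual_symm_apply
  rw [← hζ] at h1
  exact h1

end Pool.Agent.H668R3.LLM
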