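import Pool.Agent.H668R3.LLM.Exc
import Pool.Agent.H668R3.LLM.Riesz

/-! The Riesz vector in `X` -/

set_option autoImplicit false

open Filter Topology Finset

noncomputable section

namespace Pool.Agent.H668R3.LLM

variable {B : Type*} [CStarAlgebra B] (D : Amb B) (χ : D.A →⋆ₙₐ[ℂ] ℂ)

/-- the inner product of `X` with values in `A` -/
def ipA (ξ η : D.X) : D.A := ⟨star (ξ : B) * (η : B), D.XX ξ ξ.2 η η.2⟩

/-- right action -/
def rX (ξ : D.X) (c : D.A) : D.X := ⟨(ξ : B) * (c : B), D.XA ξ ξ.2 c c.2⟩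

/-- left action -/
def lX (c : D.A) (ξ : D.X) : D.X := ⟨(c : B) * (ξ : B), D.AX c c.2 ξ ξ.2⟩

lemma ipA_add_left (ξ η ζ : D.X) : ipA D (ξ + η) ζ = ipA D ξ ζ + ipA D η ζ := by
  apply Subtype.ext
  change star ((ξ : B) + (η : B)) * (ζ : B) = star (ξ : B) * (ζ : B) + star (η : B) * (ζ : B)
  rw [star_add, add_mul]

lemma ipA_sub_left (ξ η ζ : D.X) : ipA D (ξ - η) ζ = ipA D ξ ζ - ipA D η ζ := by
  apply Subtype.ext
  change star ((ξ : B) - (η : B)) * (ζ : B) = star (ξ : B) * (ζ : B) - star (η : B) * (ζ : B)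
  rw [star_sub, sub_mul]

lemma ipA_sub_right (ξ η ζ : D.X) : ipA D ξ (η - ζ) = ipA D ξ η - ipA D ξ ζ := by
  apply Subtype.ext
  change star (ξ : B) * ((η : B) - (ζ : B)) = star (ξ : B) * (η : B) - star (ξ : B) * (ζ : B)
  rw [mul_sub]

lemma ipA_smul_left (r : ℂ) (ξ η : D.X) : ipA D (r • ξ) η = star r • ipA D ξ η := by
  apply Subtype.ext
  change star (r • (ξ : B)) * (η : B) = star r • (star (ξ : B) * (η : B))
  rw [star_smul, smul_mul_assoc]

lemma ipA_star (ξ η : D.X) : star (ipA D ξ η) = ipA D η ξ := by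
  apply Subtype.ext
  change star (star (ξ : B) * (η : B)) = star (η : B) * (ξ : B)
  rw [star_mul, star_star]

lemma ipA_rX (ξ η : D.X) (c : D.A) : ipA D ξ (rX D η c) = ipA D ξ η * c := by
  apply Subtype.ext
  change star (ξ : B) * ((η : B) * (c : B)) = star (ξ : B) * (η : B) * (c : B)
  rw [mul_assoc]

lemma ipA_rX_left (ξ η : D.X) (c : D.A) : ipA D (rX D ξ c) η = star c * ipA D ξ η := by
  apply Subtype.ext
  change star ((ξ : B) * (c : B)) * (η : B) = star (c : B) * (star (ξ : B) * (η : B))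
  rw [star_mul, mul_assoc]

/-- the scalar semi-inner product -/
def coreX : PreInnerProductSpace.Core ℂ D.X where
  inner ξ η := χ (ipA D ξ η)
  conj_inner_symm ξ η := by
    change star (χ (ipA D η ξ)) = χ (ipA D ξ η)
    rw [← map_star, ipA_star]
  re_inner_nonneg ξ := (chi_nonneg D.clA χ (ipA D ξ ξ) (ξ : B) rfl).2
  add_left ξ η ζ := by rw [ipA_add_left, map_add]
  smul_left ξ η r := by
    rw [ipA_smul_left, map_smul, smul_eq_mul]; rfl

lemma coreX_inner (ξ η : D.X) : (coreX D χ).inner ξ η = χ (ipA D ξ η) := rfl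

lemma riesz_X (e : D.A) (he : χ e = 1) (ℓ : D.X →ₗ[ℂ] ℂ) (M : ℝ) (hM0 : 0 ≤ M)
    (hM : ∀ η : D.X, ‖ℓ η‖ ≤ M * ‖(η : B)‖)
    (hℓ : ∀ (η : D.X) (c : D.A), ℓ (rX D η c) = ℓ η * χ c) :
    ∃ ζ : D.X, ∀ η : D.X, χ (ipA D ζ η) = ℓ η := by
  have hexc : ∀ (η : D.X) (ε : ℝ), 0 < ε → ∃ c : D.A, χ c = 1 ∧
      ‖(η : B) * (c : B)‖ ^ 2 ≤ ‖(e : B)‖ ^ 2 * ((χ (ipA D η η)).re + ε) := by
    intro η ε hε
    have h1 := chi_nonneg D.clA χ (ipA D η η) (η : B) rfl
    exact exc D.clA χ e he (ipA D η η) (η : B) rfl _ h1.1 h1.2 ε hε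
  apply riesz (coreX D χ) (fun η : D.X => ‖(η : B)‖) (K := ‖(e : B)‖ * √2) (ℓ := ℓ)
    (C := M * ‖(e : B)‖)
  · intro u hu
    have : CompleteSpace D.X := D.clX.completeSpace_coe
    obtain ⟨x, hx⟩ := NormedAddCommGroup.summable_imp_tendsto_of_complete u hu
    refine ⟨x, ?_⟩
    rw [tendsto_iff_norm_sub_tendsto_zero] at hx
    exact hx
  · intro η
    rw [coreX_inner]
    have h1 : (χ (ipA D η η)).re ≤ ‖χ (ipA D η η)‖ := Complex.re_le_norm _
    have h2 : ‖χ (ipA D η η)‖ ≤ ‖star (η : B) * (η : B)‖ := chi_norm D.clA χ _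
    rw [CStarRing.norm_star_mul_self, ← sq] at h2
    exact h1.trans h2
  · intro η; exact norm_nonneg _
  · intro η
    rw [coreX_inner]
    have h1 := chi_nonneg D.clA χ (ipA D η η) (η : B) rfl
    rcases h1.2.eq_or_lt with h0 | h0
    · refine ⟨0, ?_, ?_⟩
      · change ‖(0 : B)‖ ≤ _
        rw [norm_zero]; positivity
      · rw [sub_zero, coreX_inner]; exact h0.symm
    · obtain ⟨c, hc1, hc2⟩ := hexc η _ h0
      refine ⟨rX D η c, ?_, ?_⟩
      · change ‖(η : B) * (c : B)‖ ≤ _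
        apply le_of_sq_le_sq _ (by positivity)
        refine hc2.trans (le_of_eq ?_)
        rw [mul_pow, mul_pow, Real.sq_sqrt (by norm_num), Real.sq_sqrt h1.2]
        ring
      · rw [coreX_inner, ipA_sub_left, ipA_sub_right, ipA_sub_right, ipA_rX, ipA_rX_left,
          ipA_rX_left, ipA_rX, map_sub, map_sub, map_sub, map_mul, map_mul, map_mul, map_mul,
          map_star, hc1]
        simp
  · intro η
    rw [coreX_inner]
    have h1 := chi_nonneg D.clA χ (ipA D η η) (η : B) rfl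
    have key : ∀ ε : ℝ, 0 < ε → ‖ℓ η‖ ≤ M * ‖(e : B)‖ * √((χ (ipA D η η)).re + ε) := by
      intro ε hε
      obtain ⟨c, hc1, hc2⟩ := hexc η ε hε
      have h2 := hℓ η c
      rw [hc1, mul_one] at h2
      rw [← h2]
      refine (hM _).trans ?_
      rw [mul_assoc]
      apply mul_le_mul_of_nonneg_left _ hM0
      change ‖(η : B) * (c : B)‖ ≤ _
      apply le_of_sq_le_sq _ (by positivity)
      refine hc2.trans (le_of_eq ?_)
      rw [mul_pow, Real.sq_sqrt (by linarith [h1.2])]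
    have hlim : Tendsto (fun ε : ℝ => M * ‖(e : B)‖ * √((χ (ipA D η η)).re + ε)) (𝓝[>] 0)
        (𝓝 (M * ‖(e : B)‖ * √((χ (ipA D η η)).re + 0))) := by
      apply Tendsto.mono_left _ nhdsWithin_le_nhds
      apply Continuous.tendsto
      fun_prop
    rw [add_zero] at hlim
    refine ge_of_tendsto hlim ?_
    filter_upwards [self_mem_nhdsWithin] with ε hε using key ε hε

end Pool.Agent.H668R3.LLM
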