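import Pool.Agent.H668R3.LLM.Core1

/-! The main contradiction -/

set_option autoImplicit false

open Filter Topology Finset

noncomputable section

namespace Pool.Agent.H668R3.LLM

variable {B : Type*} [CStarAlgebra B]

/-- Fourier coefficients on `T` -/
structure Fou (D : Amb B) where
  Φ : ℕ → D.T →ₗ[ℂ] B
  norm_le : ∀ n b, ‖Φ n b‖ ≤ ‖(b : B)‖
  mulA : ∀ n (b d : D.T), (d : B) ∈ D.A → Φ n (b * d) = Φ n b * d
  mulX0 : ∀ (b ξ : D.T), (ξ : B) ∈ D.X → Φ 0 (b * ξ) = 0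
  mulX : ∀ n (b ξ : D.T), (ξ : B) ∈ D.X → Φ (n + 1) (b * ξ) = Φ n b * ξ
  inner : ∀ n b b', star (Φ n b) * Φ n b' ∈ D.A
  uniq : ∀ b, (∀ n, Φ n b = 0) → b = 0

variable {D : Amb B} (F : Fou D)

/-- the inclusion of `X` in `T` -/
def iX (D : Amb B) : D.X →ₗ[ℂ] D.T where
  toFun a := ⟨a, D.XT a a.2⟩
  map_add' _ _ := rfl
  map_smul' _ _ := rfl

/-- the `A`-valued product of coefficients -/
def FA (n : ℕ) (b : D.T) : D.T →ₗ[ℂ] D.A where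
  toFun b' := ⟨star (F.Φ n b) * F.Φ n b', F.inner n b b'⟩
  map_add' x y := by
    apply Subtype.ext
    change star (F.Φ n b) * F.Φ n (x + y) = star (F.Φ n b) * F.Φ n x + star (F.Φ n b) * F.Φ n y
    rw [map_add, mul_add]
  map_smul' r x := by
    apply Subtype.ext
    change star (F.Φ n b) * F.Φ n (r • x) = r • (star (F.Φ n b) * F.Φ n x)
    rw [map_smul, mul_smul_comm]

lemma FA_mulA (n : ℕ) (b b' : D.T) (c : D.A) : FA F n b (b' * iA D c) = FA F n b b' * c := by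
  apply Subtype.ext
  change star (F.Φ n b) * F.Φ n (b' * iA D c) = star (F.Φ n b) * F.Φ n b' * (c : B)
  rw [F.mulA n b' (iA D c) c.2, mul_assoc]; rfl

lemma FA_mulX (n : ℕ) (b b' : D.T) (ζ : D.X) :
    FA F (n + 1) (b * iX D ζ) (b' * iX D ζ) = ipA D ζ (lX D (FA F n b b') ζ) := by
  apply Subtype.ext
  change star (F.Φ (n + 1) (b * iX D ζ)) * F.Φ (n + 1) (b' * iX D ζ) =
    star (ζ : B) * ((star (F.Φ n b) * F.Φ n b') * (ζ : B))
  rw [F.mulX n b (iX D ζ) ζ.2, F.mulX n b' (iX D ζ) ζ.2, star_mul]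
  change (star (ζ : B) * star (F.Φ n b)) * (F.Φ n b' * (ζ : B)) = _
  simp only [mul_assoc]

variable {S : D.T →L[ℂ] D.T}

lemma vv_comm (hS : ALM D S) (a : D.T) (ξ : D.X) (c d : D.A) :
    vv S a (iX D ξ) * iA D (c * d) = vv S a (iX D ξ) * iA D (d * c) := by
  have h1 := vv_left hS a (iA D d * iX D ξ) (iA D c) c.2
  rw [vv_left hS a (iX D ξ) (iA D d) d.2] at h1
  have h2 := vv_left hS a (iX D ξ) (iA D (c * d)) (c * d).2
  have e1 : iA D (c * d) = iA D c * iA D d := rfl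
  have e2 : iA D (d * c) = iA D d * iA D c := rfl
  rw [e1, mul_assoc] at h2
  rw [e1, e2, ← h2, h1, mul_assoc]

/-- `p ζ ^ k` -/
def pk (p z : D.T) : ℕ → D.T
  | 0 => p
  | k + 1 => pk p z k * z

/-- `ζ` bound for coefficients -/
def Kf (m z : ℝ) : ℕ → ℝ
  | 0 => 0
  | k + 1 => (1 + Kf m z k) / m * z

lemma Kf_nonneg (m z : ℝ) (hm : 0 < m) (hz : 0 ≤ z) (k : ℕ) : 0 ≤ Kf m z k := by
  induction k with
  | zero => exact le_rfl
  | succ k ih =>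
    change 0 ≤ (1 + Kf m z k) / m * z
    positivity

lemma coef_bound (c : D.T) (ζ : D.X) (μ ε : ℝ) (hμ : 0 < μ) (n : ℕ)
    (h : ∀ j < n, ‖F.Φ j (c * iX D ζ - (μ : ℂ) • c)‖ ≤ ε) :
    ∀ m ≤ n, ‖F.Φ m (c * iX D ζ)‖ ≤ ε * Kf μ ‖(ζ : B)‖ m := by
  intro m
  induction m with
  | zero =>
    intro _
    rw [F.mulX0 c (iX D ζ) ζ.2, norm_zero]
    change 0 ≤ ε * 0
    rw [mul_zero]
  | succ m ih =>
    intro hm
    have h1 := ih (by omega)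
    have h2 := h m (by omega)
    rw [F.mulX m c (iX D ζ) ζ.2]
    have h3 : μ * ‖F.Φ m c‖ ≤ ε + ε * Kf μ ‖(ζ : B)‖ m := by
      have e1 : (μ : ℂ) • F.Φ m c = F.Φ m (c * iX D ζ) - F.Φ m (c * iX D ζ - (μ : ℂ) • c) := by
        rw [map_sub, map_smul]; abel
      have e2 : ‖(μ : ℂ) • F.Φ m c‖ = μ * ‖F.Φ m c‖ := by
        rw [norm_smul, Complex.norm_real, Real.norm_eq_abs, abs_of_pos hμ]
      rw [← e2, e1]
      refine (norm_sub_le _ _).trans ?_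
      linarith
    have h4 : ‖F.Φ m c‖ ≤ ε * ((1 + Kf μ ‖(ζ : B)‖ m) / μ) := by
      rw [← mul_div_assoc, le_div_iff₀ hμ]
      linarith
    refine (norm_mul_le _ _).trans ?_
    change ‖F.Φ m c‖ * ‖(ζ : B)‖ ≤ ε * ((1 + Kf μ ‖(ζ : B)‖ m) / μ * ‖(ζ : B)‖)
    calc ‖F.Φ m c‖ * ‖(ζ : B)‖ ≤ (ε * ((1 + Kf μ ‖(ζ : B)‖ m) / μ)) * ‖(ζ : B)‖ := by gcongr
      _ = _ := by ring

lemma pk_bound (n : ℕ) (p : D.T) (ζ : D.X) (k : ℕ) :
    ‖F.Φ (n + k) (pk p (iX D ζ) k)‖ ≤ ‖F.Φ n p‖ * ‖(ζ : B)‖ ^ k := by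
  induction k with
  | zero => rw [pow_zero, mul_one]; exact le_rfl
  | succ k ih =>
    change ‖F.Φ (n + k + 1) (pk p (iX D ζ) k * iX D ζ)‖ ≤ _
    rw [F.mulX _ _ (iX D ζ) ζ.2]
    refine (norm_mul_le _ _).trans ?_
    rw [pow_succ, ← mul_assoc]
    exact mul_le_mul_of_nonneg_right ih (norm_nonneg _)

/-- the scalar sequence -/
def gg (χ : D.A →⋆ₙₐ[ℂ] ℂ) (n : ℕ) (p : D.T) (ζ : D.X) (k : ℕ) (b : D.T) : ℂ :=
  χ (FA F (n + k) (pk p (iX D ζ) k) b)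

section

variable (χ : D.A →⋆ₙₐ[ℂ] ℂ) (n : ℕ) (p : D.T) (ζ : D.X)

lemma gg_bound (k : ℕ) (b : D.T) :
    ‖gg F χ n p ζ k b‖ ≤ ‖F.Φ n p‖ * ‖(ζ : B)‖ ^ k * ‖F.Φ (n + k) b‖ := by
  refine (chi_norm D.clA χ _).trans ?_
  change ‖star (F.Φ (n + k) (pk p (iX D ζ) k)) * F.Φ (n + k) b‖ ≤ _
  refine (norm_mul_le _ _).trans ?_
  rw [norm_star]
  exact mul_le_mul_of_nonneg_right (pk_bound F n p ζ k) (norm_nonneg _)

lemma gg_sub (k : ℕ) (b b' : D.T) :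
    gg F χ n p ζ k (b - b') = gg F χ n p ζ k b - gg F χ n p ζ k b' := by
  unfold gg; rw [map_sub, map_sub]

lemma gg_smul (k : ℕ) (r : ℂ) (b : D.T) : gg F χ n p ζ k (r • b) = r * gg F χ n p ζ k b := by
  unfold gg; rw [map_smul, map_smul, smul_eq_mul]

lemma gg_succ (κ : ℂ) (hloop : ∀ c : D.A, χ (ipA D ζ (lX D c ζ)) = κ * χ c) (k : ℕ) (b : D.T) :
    gg F χ n p ζ (k + 1) (b * iX D ζ) = κ * gg F χ n p ζ k b := by
  unfold gg
  rw [← hloop, ← FA_mulX]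
  rfl

/-- the functional -/
def Fμ (κ μ : ℂ) (b : D.T) : ℂ := ∑' k : ℕ, (μ / κ) ^ k * gg F χ n p ζ k b

variable (κ μ : ℂ) (hq : ‖μ / κ‖ * ‖(ζ : B)‖ ≤ 1 / 2)

include hq

lemma Fμ_term (k : ℕ) (b : D.T) :
    ‖(μ / κ) ^ k * gg F χ n p ζ k b‖ ≤ (‖F.Φ n p‖ * ‖(b : B)‖) * (1 / 2) ^ k := by
  rw [norm_mul, norm_pow]
  calc ‖μ / κ‖ ^ k * ‖gg F χ n p ζ k b‖
      ≤ ‖μ / κ‖ ^ k * (‖F.Φ n p‖ * ‖(ζ : B)‖ ^ k * ‖(b : B)‖) := by
        gcongr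
        refine (gg_bound F χ n p ζ k b).trans ?_
        gcongr
        exact F.norm_le _ _
    _ = (‖F.Φ n p‖ * ‖(b : B)‖) * (‖μ / κ‖ * ‖(ζ : B)‖) ^ k := by rw [mul_pow]; ring
    _ ≤ (‖F.Φ n p‖ * ‖(b : B)‖) * (1 / 2) ^ k := by gcongr

lemma Fμ_summable (b : D.T) : Summable (fun k : ℕ => (μ / κ) ^ k * gg F χ n p ζ k b) := by
  apply Summable.of_norm_bounded (g := fun k => (‖F.Φ n p‖ * ‖(b : B)‖) * (1 / 2) ^ k)
  · exact (summable_geometric_of_lt_one (by norm_num) (by norm_num)).mul_left _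
  · exact fun k => Fμ_term F χ n p ζ κ μ hq k b

lemma Fμ_bound (b : D.T) : ‖Fμ F χ n p ζ κ μ b‖ ≤ 2 * (‖F.Φ n p‖ * ‖(b : B)‖) := by
  have h1 : HasSum (fun k : ℕ => (‖F.Φ n p‖ * ‖(b : B)‖) * (1 / 2 : ℝ) ^ k)
      ((‖F.Φ n p‖ * ‖(b : B)‖) * 2) := hasSum_geometric_two.mul_left _
  have := tsum_of_norm_bounded h1 (fun k => Fμ_term F χ n p ζ κ μ hq k b)
  rw [mul_comm] at this
  exact this

lemma Fμ_sub (b b' : D.T) :
    Fμ F χ n p ζ κ μ (b - b') = Fμ F χ n p ζ κ μ b - Fμ F χ n p ζ κ μ b' := by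
  unfold Fμ
  rw [← (Fμ_summable F χ n p ζ κ μ hq b).tsum_sub (Fμ_summable F χ n p ζ κ μ hq b')]
  refine tsum_congr fun k => ?_
  rw [gg_sub, mul_sub]

lemma Fμ_head (b : D.T) :
    ‖Fμ F χ n p ζ κ μ b - gg F χ n p ζ 0 b‖ ≤
      ‖μ / κ‖ * ‖(ζ : B)‖ * (2 * (‖F.Φ n p‖ * ‖(b : B)‖)) := by
  have h1 : Fμ F χ n p ζ κ μ b - gg F χ n p ζ 0 b =
      ∑' k : ℕ, (μ / κ) ^ (k + 1) * gg F χ n p ζ (k + 1) b := by
    unfold Fμ
    rw [(Fμ_summable F χ n p ζ κ μ hq b).tsum_eq_zero_add, pow_zero, one_mul]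
    ring
  rw [h1]
  have h2 : HasSum (fun k : ℕ => (‖μ / κ‖ * ‖(ζ : B)‖ * (‖F.Φ n p‖ * ‖(b : B)‖)) *
      (1 / 2 : ℝ) ^ k) ((‖μ / κ‖ * ‖(ζ : B)‖ * (‖F.Φ n p‖ * ‖(b : B)‖)) * 2) :=
    hasSum_geometric_two.mul_left _
  have h3 := tsum_of_norm_bounded h2 (f := fun k => (μ / κ) ^ (k + 1) *
    gg F χ n p ζ (k + 1) b) (fun k => by
      rw [norm_mul, norm_pow]
      calc ‖μ / κ‖ ^ (k + 1) * ‖gg F χ n p ζ (k + 1) b‖
          ≤ ‖μ / κ‖ ^ (k + 1) * (‖F.Φ n p‖ * ‖(ζ : B)‖ ^ (k + 1) * ‖(b : B)‖) := by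
            gcongr
            refine (gg_bound F χ n p ζ (k + 1) b).trans ?_
            gcongr
            exact F.norm_le _ _
        _ = (‖μ / κ‖ * ‖(ζ : B)‖ * (‖F.Φ n p‖ * ‖(b : B)‖)) * (‖μ / κ‖ * ‖(ζ : B)‖) ^ k := by
            rw [mul_pow]; ring
        _ ≤ (‖μ / κ‖ * ‖(ζ : B)‖ * (‖F.Φ n p‖ * ‖(b : B)‖)) * (1 / 2) ^ k := by gcongr)
  refine h3.trans (le_of_eq ?_)
  ring

lemma Fμ_key (hκ : κ ≠ 0) (hloop : ∀ c : D.A, χ (ipA D ζ (lX D c ζ)) = κ * χ c) (c : D.T) :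
    Fμ F χ n p ζ κ μ (c * iX D ζ - μ • c) = gg F χ n p ζ 0 (c * iX D ζ) := by
  rw [Fμ_sub F χ n p ζ κ μ hq]
  have h1 : Fμ F χ n p ζ κ μ (μ • c) = μ * Fμ F χ n p ζ κ μ c := by
    unfold Fμ
    rw [← tsum_mul_left]
    refine tsum_congr fun k => ?_
    rw [gg_smul]; ring
  have h2 : Fμ F χ n p ζ κ μ (c * iX D ζ) = gg F χ n p ζ 0 (c * iX D ζ) +
      μ * Fμ F χ n p ζ κ μ c := by
    unfold Fμ
    rw [(Fμ_summable F χ n p ζ κ μ hq _).tsum_eq_zero_add, pow_zero, one_mul, ← tsum_mul_left]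
    congr 1
    refine tsum_congr fun k => ?_
    rw [gg_succ F χ n p ζ κ hloop, pow_succ]
    field_simp
  rw [h1, h2]; ring

end

include F in
/-- all values of the defect on `X` vanish -/
theorem core (hS : ALM D S) (a : D.T) (ξ : D.X) : vv S a (iX D ξ) = 0 := by
  classical
  by_contra hne
  have hex : ∃ n : ℕ, ∃ ξ : D.X, F.Φ n (vv S a (iX D ξ)) ≠ 0 := by
    by_contra hno
    push Not at hno
    exact hne (F.uniq _ fun n => hno n ξ)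
  set n := Nat.find hex with hn
  obtain ⟨ξ0, hξ0⟩ := Nat.find_spec hex
  rw [← hn] at hξ0
  have hmin : ∀ j < n, ∀ η : D.X, F.Φ j (vv S a (iX D η)) = 0 := by
    intro j hj η
    by_contra hh
    exact Nat.find_min hex hj ⟨η, hh⟩
  set p : D.T := vv S a (iX D ξ0) with hp
  set h : D.A := FA F n p p with hh
  have hh0 : h ≠ 0 := by
    intro h0
    have : star (F.Φ n p) * F.Φ n p = 0 := congrArg Subtype.val h0
    exact hξ0 (CStarRing.star_mul_self_eq_zero_iff _ |>.1 this)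
  have hhs : IsSelfAdjoint h := by
    apply Subtype.ext
    change star (star (F.Φ n p) * F.Φ n p) = star (F.Φ n p) * F.Φ n p
    rw [star_mul, star_star]
  have hhcd : ∀ c d : D.A, h * (c * d) = h * (d * c) := by
    intro c d
    rw [hh, ← FA_mulA, ← FA_mulA, vv_comm hS]
  obtain ⟨χ, hχ⟩ := exists_chi D.A h hhs hh0 hhcd
  let e : D.A := (χ h)⁻¹ • h
  have he : χ e = 1 := by
    change χ ((χ h)⁻¹ • h) = 1
    rw [map_smul, smul_eq_mul, inv_mul_cancel₀ hχ]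
  -- the functional `ℓ`
  let ℓ : D.X →ₗ[ℂ] ℂ :=
    { toFun := fun η => χ (FA F n p (vv S a (iX D η)))
      map_add' := fun x y => by rw [map_add, map_add, map_add, map_add]
      map_smul' := fun r x => by
        rw [map_smul, map_smul, map_smul, map_smul]; rfl }
  have hℓdef : ∀ η, ℓ η = χ (FA F n p (vv S a (iX D η))) := fun _ => rfl
  have hℓR : ∀ (η : D.X) (c : D.A), ℓ (rX D η c) = ℓ η * χ c := by
    intro η c
    rw [hℓdef, hℓdef]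
    have : iX D (rX D η c) = iX D η * iA D c := rfl
    rw [this, vv_right hS a (iX D η) (iA D c) c.2, FA_mulA, map_mul]
  have hℓL : ∀ (η : D.X) (c : D.A), ℓ (lX D c η) = ℓ η * χ c := by
    intro η c
    rw [hℓdef, hℓdef]
    have : iX D (lX D c η) = iA D c * iX D η := rfl
    rw [this, vv_left hS a (iX D η) (iA D c) c.2, FA_mulA, map_mul]
  have hℓb : ∀ η : D.X, ‖ℓ η‖ ≤ (‖F.Φ n p‖ * ‖vv S a‖) * ‖(η : B)‖ := by
    intro η
    rw [hℓdef]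
    refine (chi_norm D.clA χ _).trans ?_
    change ‖star (F.Φ n p) * F.Φ n (vv S a (iX D η))‖ ≤ _
    refine (norm_mul_le _ _).trans ?_
    rw [norm_star, mul_assoc]
    apply mul_le_mul_of_nonneg_left _ (norm_nonneg _)
    exact (F.norm_le _ _).trans (S_bound (vv S a) (iX D η))
  obtain ⟨ζ, hζ⟩ := riesz_X D χ e he ℓ _ (by
    have := ContinuousLinearMap.opNorm_nonneg (vv S a)
    positivity) hℓb hℓR
  have hloop : ∀ c : D.A, χ (ipA D ζ (lX D c ζ)) = χ (ipA D ζ ζ) * χ c := by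
    intro c
    rw [hζ, hζ, hℓL]
  set κ : ℂ := χ (ipA D ζ ζ) with hκdef
  have hκ : κ ≠ 0 := by
    intro h0
    let c := coreX D χ
    have hcs := InnerProductSpace.Core.inner_mul_inner_self_le (𝕜 := ℂ) (c := coreX D χ) ζ ξ0
    have e1 : (coreX D χ).inner ζ ξ0 = χ h := hζ ξ0
    have e2 : (coreX D χ).inner ζ ζ = 0 := h0
    have hcs' : ‖(coreX D χ).inner ζ ξ0‖ * ‖(coreX D χ).inner ξ0 ζ‖ ≤
      RCLike.re ((coreX D χ).inner ζ ζ) * RCLike.re ((coreX D χ).inner ξ0 ξ0) := hcs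
    have e3 : ‖(coreX D χ).inner ξ0 ζ‖ = ‖(coreX D χ).inner ζ ξ0‖ := by
      rw [← (coreX D χ).conj_inner_symm ζ ξ0, RCLike.norm_conj]
    rw [e3, e1, e2, map_zero, zero_mul] at hcs'
    have : 0 < ‖χ h‖ := norm_pos_iff.2 hχ
    nlinarith
  have hκpos : 0 < ‖κ‖ := norm_pos_iff.2 hκ
  set v : D.T := vv S a (iX D ζ) with hv
  have hg0 : gg F χ n p ζ 0 v = κ := by
    have : gg F χ n p ζ 0 v = ℓ ζ := rfl
    rw [this, ← hζ]
  -- for small `μ` the functional vanishes on `v`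
  have hmain : ∀ μ : ℝ, 0 < μ → ‖(μ : ℂ) / κ‖ * ‖(ζ : B)‖ ≤ 1 / 2 →
      Fμ F χ n p ζ κ μ v = 0 := by
    intro μ hμ hq
    rw [← norm_le_zero_iff]
    have hb : ∀ ε : ℝ, 0 < ε → ‖Fμ F χ n p ζ κ μ v‖ ≤
        ε * (2 * ‖F.Φ n p‖ + ‖F.Φ n p‖ * Kf μ ‖(ζ : B)‖ n) := by
      intro ε hε
      obtain ⟨c, hc⟩ := vv_approx hS a (iX D ζ) μ ε hε
      rw [← hv] at hc
      set u : D.T := c * iX D ζ - (μ : ℂ) • c with hu
      have hcoef : ∀ j < n, ‖F.Φ j u‖ ≤ ε := by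
        intro j hj
        have h1 : F.Φ j u = -F.Φ j (v - u) := by
          have e0 : F.Φ j v = 0 := hmin j hj ζ
          have e1 : F.Φ j (v - u) = F.Φ j v - F.Φ j u := map_sub (F.Φ j) v u
          rw [e1, e0]; abel
        rw [h1, norm_neg]
        exact (F.norm_le _ _).trans hc.le
      have h2 := coef_bound F c ζ μ ε hμ n hcoef n le_rfl
      have h3 := Fμ_key F χ n p ζ κ μ hq hκ hloop c
      have h4 : Fμ F χ n p ζ κ μ v = Fμ F χ n p ζ κ μ (v - u) + Fμ F χ n p ζ κ μ u := by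
        rw [Fμ_sub F χ n p ζ κ μ hq]; ring
      rw [h4, h3]
      refine (norm_add_le _ _).trans ?_
      have h5 := Fμ_bound F χ n p ζ κ μ hq (v - u)
      have h6 := gg_bound F χ n p ζ 0 (c * iX D ζ)
      rw [pow_zero, mul_one, add_zero] at h6
      have h7 : ‖((v - u : D.T) : B)‖ ≤ ε := hc.le
      calc ‖Fμ F χ n p ζ κ μ (v - u)‖ + ‖gg F χ n p ζ 0 (c * iX D ζ)‖
          ≤ 2 * (‖F.Φ n p‖ * ε) + ‖F.Φ n p‖ * (ε * Kf μ ‖(ζ : B)‖ n) := by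
            apply add_le_add
            · refine h5.trans ?_
              gcongr
            · refine h6.trans ?_
              gcongr
        _ = _ := by ring
    have hlim : Tendsto (fun ε : ℝ => ε * (2 * ‖F.Φ n p‖ + ‖F.Φ n p‖ * Kf μ ‖(ζ : B)‖ n))
        (𝓝[>] 0) (𝓝 (0 * (2 * ‖F.Φ n p‖ + ‖F.Φ n p‖ * Kf μ ‖(ζ : B)‖ n))) := by
      apply Tendsto.mono_left _ nhdsWithin_le_nhds
      exact (continuous_id.mul continuous_const).tendsto 0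
    rw [zero_mul] at hlim
    refine ge_of_tendsto hlim ?_
    filter_upwards [self_mem_nhdsWithin] with ε hε using hb ε hε
  -- let `μ → 0`
  have hfin : ‖κ‖ ≤ 0 := by
    have hq : Tendsto (fun μ : ℝ => ‖(μ : ℂ) / κ‖ * ‖(ζ : B)‖) (𝓝[>] 0) (𝓝 0) := by
      have : Tendsto (fun μ : ℝ => ‖(μ : ℂ) / κ‖ * ‖(ζ : B)‖) (𝓝 0)
          (𝓝 (‖((0 : ℝ) : ℂ) / κ‖ * ‖(ζ : B)‖)) := by
        apply Continuous.tendsto
        fun_prop
      rw [Complex.ofReal_zero, zero_div, norm_zero, zero_mul] at this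
      exact this.mono_left nhdsWithin_le_nhds
    have hlim := hq.mul_const (2 * (‖F.Φ n p‖ * ‖(v : B)‖))
    rw [zero_mul] at hlim
    refine ge_of_tendsto hlim ?_
    filter_upwards [self_mem_nhdsWithin, hq.eventually_le_const (by norm_num : (0:ℝ) < 1 / 2)]
      with μ hμ hqμ
    have h1 := Fμ_head F χ n p ζ κ μ hqμ v
    rw [hmain μ hμ hqμ, hg0, zero_sub, norm_neg] at h1
    exact h1
  linarith

end Pool.Agent.H668R3.LLM
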