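import Mathlib

/-! C*-correspondences, Toeplitz representations, tensor algebras, left multipliers -/

set_option autoImplicit false

open Filter Topology

noncomputable section

namespace Pool.Agent.H668R3.LLM

universe u v w

/-- A C*-correspondence over the C*-algebra `A` (not assumed unital): a normed space `X` (complete
in the results) with
* a right action `ract ξ a = ξ a` of `A`,
* an `A`-valued inner product `ip ξ η = ⟨ξ, η⟩`, linear in the second variable, with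
  `⟨ξ, ξ⟩ ≥ 0` and `‖ξ‖ ^ 2 = ‖⟨ξ, ξ⟩‖`,
* a left action `lact a ξ = φ(a) ξ` given by a homomorphism `φ` from `A` to the linear maps of `X`
  such that `φ(a)` is adjointable with adjoint `φ(star a)`. The left action may be degenerate. -/
structure Corr (A : Type v) (X : Type w) [NonUnitalCStarAlgebra A] [NormedAddCommGroup X]
    [NormedSpace ℂ X] where
  ract : X → A → X
  ip : X → X → A
  lact : A → X → X
  ract_add_left : ∀ ξ η a, ract (ξ + η) a = ract ξ a + ract η a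
  ract_add_right : ∀ ξ a b, ract ξ (a + b) = ract ξ a + ract ξ b
  ract_smul_left : ∀ (r : ℂ) ξ a, ract (r • ξ) a = r • ract ξ a
  ract_smul_right : ∀ (r : ℂ) ξ a, ract ξ (r • a) = r • ract ξ a
  ract_mul : ∀ ξ a b, ract ξ (a * b) = ract (ract ξ a) b
  ip_add_right : ∀ ξ η ζ, ip ξ (η + ζ) = ip ξ η + ip ξ ζ
  ip_smul_right : ∀ (r : ℂ) ξ η, ip ξ (r • η) = r • ip ξ η
  ip_ract_right : ∀ ξ η a, ip ξ (ract η a) = ip ξ η * a
  ip_star : ∀ ξ η, star (ip ξ η) = ip η ξ
  ip_pos : ∀ ξ, ∃ b : A, ip ξ ξ = star b * b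
  norm_sq : ∀ ξ, ‖ξ‖ ^ 2 = ‖ip ξ ξ‖
  lact_add_left : ∀ a b ξ, lact (a + b) ξ = lact a ξ + lact b ξ
  lact_smul_left : ∀ (r : ℂ) a ξ, lact (r • a) ξ = r • lact a ξ
  lact_mul : ∀ a b ξ, lact (a * b) ξ = lact a (lact b ξ)
  lact_add_right : ∀ a ξ η, lact a (ξ + η) = lact a ξ + lact a η
  lact_smul_right : ∀ (r : ℂ) a ξ, lact a (r • ξ) = r • lact a ξ
  lact_adj : ∀ a ξ η, ip (lact a ξ) η = ip ξ (lact (star a) η)

variable {A : Type v} {X : Type w} [NonUnitalCStarAlgebra A] [NormedAddCommGroup X] [NormedSpace ℂ X]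

/-- A Toeplitz representation of the correspondence `E` in the C*-algebra `T`. -/
structure ToeplitzRep (E : Corr A X) (T : Type u) [NonUnitalCStarAlgebra T] where
  π : A →⋆ₙₐ[ℂ] T
  t : X →ₗ[ℂ] T
  left : ∀ a ξ, π a * t ξ = t (E.lact a ξ)
  inner : ∀ ξ η, star (t ξ) * t η = π (E.ip ξ η)

/-- `R` is a universal Toeplitz representation: its image generates `T` as a C*-algebra, and
every Toeplitz representation factors through it by a `*`-homomorphism. So `T` is the Toeplitz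
algebra `𝒯_X`, and `R.π`, `R.t` are `π_∞`, `t_∞`. -/
structure IsUniversal {E : Corr A X} {T : Type u} [NonUnitalCStarAlgebra T]
    (R : ToeplitzRep E T) : Prop where
  generates : (NonUnitalStarAlgebra.adjoin ℂ
    (Set.range R.π ∪ Set.range R.t)).topologicalClosure = ⊤
  factors : ∀ (C : Type u) [NonUnitalCStarAlgebra C] (R' : ToeplitzRep E C),
    ∃ Ψ : T →⋆ₙₐ[ℂ] C, (∀ a, Ψ (R.π a) = R'.π a) ∧ ∀ ξ, Ψ (R.t ξ) = R'.t ξ

/-- The tensor algebra `𝒯_X⁺`: the norm-closed subalgebra generated by all `π(a)` and `t(ξ)`. -/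
def tensorAlg {E : Corr A X} {T : Type u} [NonUnitalCStarAlgebra T] (R : ToeplitzRep E T) :
    NonUnitalSubalgebra ℂ T :=
  (NonUnitalAlgebra.adjoin ℂ (Set.range R.π ∪ Set.range R.t)).topologicalClosure

/-- Left multipliers of an algebra. -/
def IsLeftMultiplier {𝒜 : Type u} [Mul 𝒜] (S : 𝒜 → 𝒜) : Prop :=
  ∀ a b, S (a * b) = S a * b

/-- Local left multipliers: `S a = x_a a` for some `x_a`. -/
def IsLocalLeftMultiplier {𝒜 : Type u} [Mul 𝒜] (S : 𝒜 → 𝒜) : Prop :=
  ∀ a, ∃ x, S a = x * a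

/-- Approximately local left multipliers: `S a = lim x_{a,n} a` for some sequence. -/
def IsApproxLocalLeftMultiplier {𝒜 : Type u} [Mul 𝒜] [TopologicalSpace 𝒜] (S : 𝒜 → 𝒜) : Prop :=
  ∀ a, ∃ x : ℕ → 𝒜, Tendsto (fun n => x n * a) atTop (𝓝 (S a))

end Pool.Agent.H668R3.LLM
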