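import Pool.Agent.H668R3.LLM.Chi

/-! Positivity of characters and excision -/

set_option autoImplicit false

open Filter Topology Finset

noncomputable section

namespace Pool.Agent.H668R3.LLM

variable {B : Type*} [CStarAlgebra B] {A : NonUnitalStarSubalgebra ℂ B}

/-- square roots stay in the subalgebra -/
lemma sqrt_exists (hA : IsClosed (A : Set B)) (a : A) (x : B) (h : (a : B) = star x * x) :
    ∃ b : A, star b = b ∧ b * b = a := by
  have hspec : ∀ t ∈ spectrum ℝ (a : B), 0 ≤ t := by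
    rw [h]; exact fun t ht => spectrum_star_mul_self_nonneg t ht
  have hsa : IsSelfAdjoint (a : B) := by rw [h]; exact IsSelfAdjoint.star_mul_self x
  have hmem : cfc Real.sqrt (a : B) ∈ A := by
    rw [← cfcₙ_eq_cfc (f := Real.sqrt) (a := (a : B)) (Real.continuous_sqrt.continuousOn)
      Real.sqrt_zero]
    exact cfcₙ_mem (hs := hA) (𝕜' := ℂ) Real.sqrt a.2
  refine ⟨⟨cfc Real.sqrt (a : B), hmem⟩, ?_, ?_⟩
  · apply Subtype.ext
    exact (cfc_predicate Real.sqrt (a : B) : IsSelfAdjoint _).star_eq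
  · apply Subtype.ext
    change cfc Real.sqrt (a : B) * cfc Real.sqrt (a : B) = a
    rw [← cfc_mul _ _ (a : B) Real.continuous_sqrt.continuousOn Real.continuous_sqrt.continuousOn]
    conv_rhs => rw [← cfc_id ℝ (a : B)]
    apply cfc_congr
    intro t ht
    exact Real.mul_self_sqrt (hspec t ht)

lemma chi_nonneg (hA : IsClosed (A : Set B)) (χ : A →⋆ₙₐ[ℂ] ℂ) (a : A) (x : B)
    (h : (a : B) = star x * x) : χ a = ((χ a).re : ℂ) ∧ 0 ≤ (χ a).re := by
  obtain ⟨b, hb1, hb2⟩ := sqrt_exists hA a x h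
  have h1 : star (χ b) = χ b := by rw [← map_star, hb1]
  have h2 : χ b = ((χ b).re : ℂ) := (Complex.conj_eq_iff_re.1 h1).symm
  have h3 : χ a = (((χ b).re * (χ b).re : ℝ) : ℂ) := by
    rw [← hb2, map_mul, h2]; push_cast; simp
  rw [h3, Complex.ofReal_re]
  exact ⟨rfl, mul_self_nonneg _⟩

lemma chi_norm (hA : IsClosed (A : Set B)) (χ : A →⋆ₙₐ[ℂ] ℂ) (a : A) : ‖χ a‖ ≤ ‖(a : B)‖ := by
  have := hA
  exact NonUnitalStarAlgHom.norm_apply_le χ a

lemma exc (hA : IsClosed (A : Set B)) (χ : A →⋆ₙₐ[ℂ] ℂ) (e : A) (he : χ e = 1) (b : A) (η : B)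
    (hb : (b : B) = star η * η) (β : ℝ) (hβ : χ b = β) (hβ0 : 0 ≤ β) (ε : ℝ) (hε : 0 < ε) :
    ∃ c : A, χ c = 1 ∧ ‖η * (c : B)‖ ^ 2 ≤ ‖(e : B)‖ ^ 2 * (β + ε) := by
  have hspec : ∀ t ∈ spectrum ℝ (b : B), 0 ≤ t := by
    rw [hb]; exact fun t ht => spectrum_star_mul_self_nonneg t ht
  have hsa : IsSelfAdjoint (b : B) := by rw [hb]; exact IsSelfAdjoint.star_mul_self η
  set g : ℝ → ℝ := fun t => (2 * β + ε) / (t + (β + ε)) with hg
  have hgc : ContinuousOn g (spectrum ℝ (b : B)) := by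
    apply ContinuousOn.div continuousOn_const (by fun_prop)
    intro t ht
    have := hspec t ht
    positivity
  set R : B := cfc g (b : B) with hR
  have hRM : R ∈ Mlt A := cfc_Mlt A hA g (le_Mlt A b.2)
  have hRsa : star R = R := (cfc_predicate g (b : B) : IsSelfAdjoint _).star_eq
  have hbR : (b : B) * R + ((β + ε : ℝ) : ℂ) • R = ((2 * β + ε : ℝ) : ℂ) • 1 := by
    have h1 : (b : B) * R = cfc (fun t => t * g t) (b : B) := by
      rw [cfc_mul (fun t => t) g (b : B) continuousOn_id hgc, cfc_id' ℝ (b : B)]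
    have h2 : ((β + ε : ℝ) : ℂ) • R = cfc (fun t => (β + ε) * g t) (b : B) := by
      rw [cfc_const_mul (β + ε) g (b : B) hgc]
      exact Complex.coe_smul _ _
    have h3 : ((2 * β + ε : ℝ) : ℂ) • (1 : B) = cfc (fun _ => (2 * β + ε)) (b : B) := by
      rw [cfc_const (2 * β + ε) (b : B), Algebra.algebraMap_eq_smul_one]
      exact Complex.coe_smul _ _
    rw [h1, h2, h3, ← cfc_add (b : B) (fun t => t * g t) (fun t => (β + ε) * g t)
      (continuousOn_id.mul hgc) (continuousOn_const.mul hgc)]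
    apply cfc_congr
    intro t ht
    have := hspec t ht
    simp only [hg]
    field_simp
  let c : A := ⟨R * (e : B), (hRM e e.2).2⟩
  have hbc : b * c + ((β + ε : ℝ) : ℂ) • c = ((2 * β + ε : ℝ) : ℂ) • e := by
    apply Subtype.ext
    change (b : B) * (R * (e : B)) + ((β + ε : ℝ) : ℂ) • (R * (e : B)) =
      ((2 * β + ε : ℝ) : ℂ) • (e : B)
    rw [← mul_assoc, ← smul_mul_assoc, ← add_mul, hbR, smul_mul_assoc, one_mul]
  refine ⟨c, ?_, ?_⟩
  · have h1 := congrArg χ hbc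
    rw [map_add, map_mul, map_smul, map_smul, he, hβ, smul_eq_mul, smul_eq_mul, mul_one] at h1
    have h2 : ((2 * β + ε : ℝ) : ℂ) * χ c = ((2 * β + ε : ℝ) : ℂ) := by
      push_cast at h1 ⊢
      linear_combination h1
    have h3 : ((2 * β + ε : ℝ) : ℂ) ≠ 0 := by
      have : (2 * β + ε : ℝ) ≠ 0 := by positivity
      exact_mod_cast this
    exact mul_left_cancel₀ h3 (by rw [h2, mul_one])
  · change ‖η * (R * (e : B))‖ ^ 2 ≤ _
    have h1 : ‖η * (R * (e : B))‖ ^ 2 = ‖star (e : B) * (R * (b : B) * R) * (e : B)‖ := by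
      rw [sq, ← CStarRing.norm_star_mul_self]
      congr 1
      rw [star_mul, star_mul, hRsa, hb]
      noncomm_ring
    have h2 : R * (b : B) * R = cfc (fun t => g t * t * g t) (b : B) := by
      rw [cfc_mul (fun t => g t * t) g (b : B) (hgc.mul continuousOn_id) hgc,
        cfc_mul g (fun t => t) (b : B) hgc continuousOn_id, cfc_id' ℝ (b : B)]
    have h3 : ‖R * (b : B) * R‖ ≤ β + ε := by
      rw [h2]
      apply norm_cfc_le (by positivity)
      intro t ht
      have ht0 := hspec t ht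
      have hp : 0 < t + (β + ε) := by positivity
      rw [Real.norm_eq_abs, abs_of_nonneg (by simp only [hg]; positivity)]
      simp only [hg]
      rw [show (2 * β + ε) / (t + (β + ε)) * t * ((2 * β + ε) / (t + (β + ε))) =
        t * (2 * β + ε) ^ 2 / (t + (β + ε)) ^ 2 by field_simp]
      rw [div_le_iff₀ (by positivity)]
      have h4 : (2 * β + ε) ^ 2 ≤ 4 * (β + ε) ^ 2 := by nlinarith
      have h5 : 4 * t * (β + ε) ≤ (t + (β + ε)) ^ 2 := by nlinarith [sq_nonneg (t - (β + ε))]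
      calc t * (2 * β + ε) ^ 2 ≤ t * (4 * (β + ε) ^ 2) := by gcongr
        _ = (β + ε) * (4 * t * (β + ε)) := by ring
        _ ≤ (β + ε) * (t + (β + ε)) ^ 2 := by gcongr
    rw [h1]
    calc ‖star (e : B) * (R * (b : B) * R) * (e : B)‖
        ≤ ‖star (e : B) * (R * (b : B) * R)‖ * ‖(e : B)‖ := norm_mul_le _ _
      _ ≤ (‖star (e : B)‖ * ‖R * (b : B) * R‖) * ‖(e : B)‖ := by gcongr; exact norm_mul_le _ _
      _ ≤ (‖(e : B)‖ * (β + ε)) * ‖(e : B)‖ := by rw [norm_star]; gcongr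
      _ = ‖(e : B)‖ ^ 2 * (β + ε) := by ring

end Pool.Agent.H668R3.LLM
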