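import Pool.Agent.H668R3.LLM.Four

/-! Approximately local left multipliers of the ambient data are left multipliers -/

set_option autoImplicit false

open Filter Topology Finset

noncomputable section

namespace Pool.Agent.H668R3.LLM

variable {B : Type*} [CStarAlgebra B] {D : Amb B} {S : D.T →L[ℂ] D.T}

theorem leftmult (G : Gauge D) (hS : ALM D S) (a b : D.T) : S (a * b) = S a * b := by
  let T0 : Set D.T := {b | ∀ a, S (a * b) = S a * b}
  have hT0 : IsClosed T0 := by
    have : T0 = ⋂ a : D.T, {b | S (a * b) = S a * b} := by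
      ext b; simp only [Set.mem_iInter]; rfl
    rw [this]
    exact isClosed_iInter fun a => isClosed_eq (by fun_prop) (by fun_prop)
  let T' : NonUnitalSubalgebra ℂ B :=
    { carrier := (Subtype.val : D.T → B) '' T0
      mul_mem' := by
        rintro _ _ ⟨s, hs, rfl⟩ ⟨t, ht, rfl⟩
        refine ⟨s * t, fun a => ?_, rfl⟩
        rw [← mul_assoc, ht (a * s), hs a, mul_assoc]
      add_mem' := by
        rintro _ _ ⟨s, hs, rfl⟩ ⟨t, ht, rfl⟩
        refine ⟨s + t, fun a => ?_, rfl⟩
        rw [mul_add, map_add, hs a, ht a, mul_add]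
      zero_mem' := ⟨0, fun a => by rw [mul_zero, map_zero, mul_zero], rfl⟩
      smul_mem' := by
        rintro r _ ⟨s, hs, rfl⟩
        refine ⟨r • s, fun a => ?_, rfl⟩
        rw [mul_smul_comm, map_smul, hs a, mul_smul_comm] }
  have hcl : IsClosed (T' : Set B) := (D.clT.isClosedEmbedding_subtypeVal).isClosedMap _ hT0
  obtain ⟨s, hs, hsb⟩ := D.gen T' hcl
    (fun a ha => ⟨⟨a, D.AT a ha⟩, fun c => S_A hS.zl c ⟨a, D.AT a ha⟩ ha, rfl⟩)
    (fun x hx => ⟨⟨x, D.XT x hx⟩, fun c => by
      have h1 := core (fou G) hS c ⟨x, hx⟩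
      have h2 : S (c * iX D ⟨x, hx⟩) - S c * iX D ⟨x, hx⟩ = 0 := h1
      exact sub_eq_zero.1 h2, rfl⟩) b b.2
  have : s = b := Subtype.ext hsb
  rw [← this]
  exact hs a

end Pool.Agent.H668R3.LLM
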