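import Pool.Agent.H668R3.LLM.Defs
import Pool.Agent.H668R3.LLM.LM

/-! The theorem for tensor algebras -/

set_option autoImplicit false

open Filter Topology

noncomputable section

namespace Pool.Agent.H668R3.LLM

universe u v w

variable {A : Type v} {X : Type w} [NonUnitalCStarAlgebra A] [NormedAddCommGroup X]
  [NormedSpace ℂ X]
  {E : Corr A X} {T : Type u} [NonUnitalCStarAlgebra T] (R : ToeplitzRep E T)

/-- `t(ξ) π(a) = t(ξ a)` -/
lemma t_π (ξ : X) (a : A) : R.t ξ * R.π a = R.t (E.ract ξ a) := by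
  have h1 : E.ip (E.ract ξ a) ξ = star a * E.ip ξ ξ := by
    rw [← E.ip_star ξ (E.ract ξ a), E.ip_ract_right, star_mul, E.ip_star]
  have h2 : star (R.t ξ * R.π a - R.t (E.ract ξ a)) * (R.t ξ * R.π a - R.t (E.ract ξ a)) = 0 := by
    have e1 : star (R.t ξ * R.π a - R.t (E.ract ξ a)) * (R.t ξ * R.π a - R.t (E.ract ξ a)) =
        star (R.π a) * (star (R.t ξ) * R.t ξ) * R.π a -
        star (R.π a) * (star (R.t ξ) * R.t (E.ract ξ a)) -
        (star (R.t (E.ract ξ a)) * R.t ξ) * R.π a +
        star (R.t (E.ract ξ a)) * R.t (E.ract ξ a) := by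
      rw [star_sub, star_mul]; noncomm_ring
    rw [e1, R.inner, R.inner, R.inner, R.inner, ← map_star, ← map_mul, ← map_mul, ← map_mul,
      ← map_mul, E.ip_ract_right, E.ip_ract_right, h1]
    simp [mul_assoc]
  have h3 := CStarRing.star_mul_self_eq_zero_iff _ |>.1 h2
  exact sub_eq_zero.1 h3

/-- closure of the image of `A` -/
def A1 : NonUnitalStarSubalgebra ℂ T := (NonUnitalStarAlgHom.range R.π).topologicalClosure

/-- closure of the image of `X` -/
def X1 : Submodule ℂ T := (LinearMap.range R.t).topologicalClosure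

lemma mem_A1 (a : T) : a ∈ A1 R ↔ a ∈ closure (Set.range R.π) := Iff.rfl

lemma mem_X1 (a : T) : a ∈ X1 R ↔ a ∈ closure (Set.range R.t) := Iff.rfl

lemma mem_T1 (a : T) : a ∈ tensorAlg R ↔
  a ∈ closure ((NonUnitalAlgebra.adjoin ℂ (Set.range R.π ∪ Set.range R.t) :
    NonUnitalSubalgebra ℂ T) : Set T) := Iff.rfl

/-- the embedding into the unitization -/
def jj (T : Type u) [NonUnitalCStarAlgebra T] : T →⋆ₙₐ[ℂ] Unitization ℂ T :=
  Unitization.inrNonUnitalStarAlgHom ℂ T

lemma jj_iso (T : Type u) [NonUnitalCStarAlgebra T] : Isometry (jj T) := Unitization.isometry_inr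

lemma jj_ce (T : Type u) [NonUnitalCStarAlgebra T] : IsClosedEmbedding (jj T) :=
  (jj_iso T).isClosedEmbedding

/-- the embedding as a linear map -/
def jl (T : Type u) [NonUnitalCStarAlgebra T] : T →ₗ[ℂ] Unitization ℂ T where
  toFun x := jj T x
  map_add' := map_add (jj T)
  map_smul' := map_smul (jj T)

/-- the embedding as an algebra hom -/
def jn (T : Type u) [NonUnitalCStarAlgebra T] : T →ₙₐ[ℂ] Unitization ℂ T :=
  (jj T).toNonUnitalAlgHom

/-- the ambient data of a Toeplitz representation -/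
def amb : Amb (Unitization ℂ T) where
  A := (A1 R).map (jj T)
  X := (X1 R).map (jl T)
  T := (tensorAlg R).map (jn T)
  clA := (jj_ce T).isClosedMap _ isClosed_closure
  clX := (jj_ce T).isClosedMap _ isClosed_closure
  clT := (jj_ce T).isClosedMap _ isClosed_closure
  AT := by
    rintro _ ⟨a, ha, rfl⟩
    refine ⟨a, ?_, rfl⟩
    refine closure_mono ?_ ha
    intro x hx
    exact NonUnitalAlgebra.subset_adjoin ℂ (Or.inl hx)
  XT := by
    rintro _ ⟨a, ha, rfl⟩
    refine ⟨a, ?_, rfl⟩
    refine closure_mono ?_ ha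
    intro x hx
    exact NonUnitalAlgebra.subset_adjoin ℂ (Or.inr hx)
  XX := by
    rintro _ ⟨a, ha, rfl⟩ _ ⟨b, hb, rfl⟩
    refine ⟨star a * b, ?_, ?_⟩
    · refine map_mem_closure₂ (f := fun x y : T => star x * y) (by fun_prop) ha hb ?_
      rintro _ ⟨ξ, rfl⟩ _ ⟨η, rfl⟩
      exact ⟨E.ip ξ η, (R.inner ξ η).symm⟩
    · change jj T (star a * b) = star (jj T a) * jj T b
      rw [map_mul, map_star]
  AX := by
    rintro _ ⟨a, ha, rfl⟩ _ ⟨b, hb, rfl⟩
    refine ⟨a * b, ?_, ?_⟩
    · refine map_mem_closure₂ (f := fun x y : T => x * y) (by fun_prop) ha hb ?_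
      rintro _ ⟨c, rfl⟩ _ ⟨η, rfl⟩
      exact ⟨E.lact c η, (R.left c η).symm⟩
    · change jj T (a * b) = jj T a * jj T b
      rw [map_mul]
  XA := by
    rintro _ ⟨a, ha, rfl⟩ _ ⟨b, hb, rfl⟩
    refine ⟨a * b, ?_, ?_⟩
    · refine map_mem_closure₂ (f := fun x y : T => x * y) (by fun_prop) ha hb ?_
      rintro _ ⟨η, rfl⟩ _ ⟨c, rfl⟩
      exact ⟨E.ract η c, (t_π R η c).symm⟩
    · change jj T (a * b) = jj T a * jj T b
      rw [map_mul]
  gen := by
    intro T' hT' hA hX t ht
    obtain ⟨s, hs, rfl⟩ := ht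
    have hcl : IsClosed ((T'.comap (jn T) : NonUnitalSubalgebra ℂ T) : Set T) :=
      hT'.preimage (jj_iso T).continuous
    have hle : (NonUnitalAlgebra.adjoin ℂ (Set.range R.π ∪ Set.range R.t) :
        NonUnitalSubalgebra ℂ T).topologicalClosure ≤ T'.comap (jn T) := by
      apply NonUnitalSubalgebra.topologicalClosure_minimal _ hcl
      rw [NonUnitalAlgebra.adjoin_le_iff]
      rintro x (⟨a, rfl⟩ | ⟨ξ, rfl⟩)
      · exact hA _ ⟨R.π a, subset_closure ⟨a, rfl⟩, rfl⟩
      · exact hX _ ⟨R.t ξ, subset_closure ⟨ξ, rfl⟩, rfl⟩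
    exact hle hs

/-- the rotated representation -/
def rot (z : Circle) : ToeplitzRep E T where
  π := R.π
  t := (z : ℂ) • R.t
  left a ξ := by
    rw [LinearMap.smul_apply, LinearMap.smul_apply, mul_smul_comm, R.left]
  inner ξ η := by
    rw [LinearMap.smul_apply, LinearMap.smul_apply, star_smul, smul_mul_smul_comm, R.inner]
    have : star (z : ℂ) * (z : ℂ) = 1 := by
      rw [Complex.star_def, ← Complex.normSq_eq_conj_mul_self, Circle.normSq_coe,
        Complex.ofReal_one]
    rw [this, one_smul]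

lemma hom_cont (ψ : T →⋆ₙₐ[ℂ] T) : Continuous ψ :=
  AddMonoidHomClass.continuous_of_bound ψ 1 (fun b => by
    rw [one_mul]; exact NonUnitalStarAlgHom.norm_apply_le ψ b)

/-- the gauge action of a universal representation -/
def gauge (hR : IsUniversal R) : Gauge (amb R) where
  γ z := Unitization.starMap (Classical.choose (hR.factors T (rot R z)))
  fixA z := by
    rintro _ ⟨a, ha, rfl⟩
    have hspec := Classical.choose_spec (hR.factors T (rot R z))
    set ψ := Classical.choose (hR.factors T (rot R z)) with hψ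
    change Unitization.starMap ψ (Unitization.inr a) = Unitization.inr a
    rw [Unitization.starMap_inr]
    congr 1
    have hcl : IsClosed {x : T | ψ x = x} := isClosed_eq (hom_cont ψ) continuous_id
    have : closure (Set.range R.π) ⊆ {x : T | ψ x = x} := by
      apply closure_minimal _ hcl
      rintro _ ⟨c, rfl⟩
      exact hspec.1 c
    exact this ha
  actX z := by
    rintro _ ⟨a, ha, rfl⟩
    have hspec := Classical.choose_spec (hR.factors T (rot R z))
    set ψ := Classical.choose (hR.factors T (rot R z)) with hψ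
    change Unitization.starMap ψ (Unitization.inr a) = (z : ℂ) • Unitization.inr a
    rw [Unitization.starMap_inr, ← Unitization.inr_smul]
    congr 1
    have hcl : IsClosed {x : T | ψ x = (z : ℂ) • x} := isClosed_eq (hom_cont ψ) (by fun_prop)
    have : closure (Set.range R.t) ⊆ {x : T | ψ x = (z : ℂ) • x} := by
      apply closure_minimal _ hcl
      rintro _ ⟨c, rfl⟩
      exact hspec.2 c
    exact this ha

/-- into the ambient algebra -/
def jT : tensorAlg R →ₗ[ℂ] (amb R).T where
  toFun x := ⟨jj T x, ⟨x, x.2, rfl⟩⟩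
  map_add' x y := Subtype.ext (map_add (jj T) (x : T) (y : T))
  map_smul' r x := Subtype.ext (map_smul (jj T) r (x : T))

/-- the equivalence -/
def jE : tensorAlg R ≃ₗ[ℂ] (amb R).T :=
  LinearEquiv.ofBijective (jT R) ⟨by
    intro x y h
    have h1 : jj T (x : T) = jj T (y : T) := congrArg Subtype.val h
    exact Subtype.ext ((jj_iso T).injective h1), by
    rintro ⟨_, ⟨x, hx, rfl⟩⟩
    exact ⟨⟨x, hx⟩, rfl⟩⟩

lemma jE_coe (x : tensorAlg R) : ((jE R x : (amb R).T) : Unitization ℂ T) = jj T (x : T) := rfl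

lemma jE_norm (x : tensorAlg R) : ‖jE R x‖ = ‖x‖ := (jj_iso T).norm_map_of_map_zero (map_zero _) _

lemma jE_mul (x y : tensorAlg R) : jE R (x * y) = jE R x * jE R y :=
  Subtype.ext (map_mul (jj T) (x : T) (y : T))

/-- the homeomorphic linear equivalence -/
def jC : tensorAlg R ≃L[ℂ] (amb R).T :=
  (LinearIsometryEquiv.mk (jE R) (jE_norm R)).toContinuousLinearEquiv

lemma jC_apply (x : tensorAlg R) : jC R x = jE R x := rfl

lemma jC_mul (x y : tensorAlg R) : jC R (x * y) = jC R x * jC R y := jE_mul R x y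

/-- the transported map -/
def trS (S : tensorAlg R →L[ℂ] tensorAlg R) : (amb R).T →L[ℂ] (amb R).T :=
  (jC R : tensorAlg R →L[ℂ] (amb R).T).comp
    (S.comp ((jC R).symm : (amb R).T →L[ℂ] tensorAlg R))

lemma trS_apply (S : tensorAlg R →L[ℂ] tensorAlg R) (x : tensorAlg R) :
    trS R S (jC R x) = jC R (S x) := by
  change jC R (S ((jC R).symm (jC R x))) = _
  rw [ContinuousLinearEquiv.symm_apply_apply]

theorem approx_main (hR : IsUniversal R) (S : tensorAlg R →L[ℂ] tensorAlg R)
    (hS : IsApproxLocalLeftMultiplier S) : IsLeftMultiplier S := by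
  have hALM : ALM (amb R) (trS R S) := by
    intro a
    obtain ⟨a0, rfl⟩ := (jC R).surjective a
    rw [trS_apply]
    obtain ⟨x, hx⟩ := hS a0
    have h1 : Tendsto (fun n => jC R (x n * a0)) atTop (𝓝 (jC R (S a0))) :=
      ((jC R).continuous.tendsto _).comp hx
    refine mem_closure_of_tendsto h1 (Eventually.of_forall fun n => ?_)
    exact ⟨jC R (x n), jC_mul R _ _⟩
  intro a b
  have h2 := leftmult (gauge R hR) hALM (jC R a) (jC R b)
  rw [← jC_mul, trS_apply, trS_apply, ← jC_mul] at h2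
  exact (jC R).injective h2

end Pool.Agent.H668R3.LLM
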