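import Pool.Agent.H668R3.LLM.Core2

/-! Fourier coefficients from the gauge action -/

set_option autoImplicit false

open Filter Topology Finset MeasureTheory AddCircle

noncomputable section

namespace Pool.Agent.H668R3.LLM

variable {B : Type*} [CStarAlgebra B]

/-- a gauge action -/
structure Gauge (D : Amb B) where
  γ : Circle → (B →⋆ₐ[ℂ] B)
  fixA : ∀ z, ∀ a ∈ D.A, γ z a = a
  actX : ∀ z : Circle, ∀ x ∈ D.X, γ z x = (z : ℂ) • x

variable {D : Amb B} (G : Gauge D)

lemma γ_norm (z : Circle) (b : B) : ‖G.γ z b‖ ≤ ‖b‖ := NonUnitalStarAlgHom.norm_apply_le (G.γ z) b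

lemma orb_cont (b : B) (hb : b ∈ D.T) : Continuous (fun z : Circle => G.γ z b) := by
  let T' : NonUnitalSubalgebra ℂ B :=
    { carrier := {t | Continuous (fun z : Circle => G.γ z t)}
      mul_mem' := by
        intro s t hs ht
        simp only [Set.mem_ofPred_eq, map_mul] at *
        exact hs.mul ht
      add_mem' := by
        intro s t hs ht
        simp only [Set.mem_ofPred_eq, map_add] at *
        exact hs.add ht
      zero_mem' := by
        simp only [Set.mem_ofPred_eq, map_zero]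
        exact continuous_const
      smul_mem' := by
        intro r t ht
        simp only [Set.mem_ofPred_eq, map_smul] at *
        exact ht.const_smul r }
  have hcl : IsClosed (T' : Set B) := by
    apply isClosed_of_closure_subset
    intro t ht
    change Continuous (fun z : Circle => G.γ z t)
    apply continuous_of_uniform_approx_of_continuous
    intro u hu
    obtain ⟨ε, hε, hεu⟩ := Metric.mem_uniformity_dist.1 hu
    obtain ⟨s, hs, hst⟩ := Metric.mem_closure_iff.1 ht ε hε
    refine ⟨fun z => G.γ z s, hs, fun z => hεu ?_⟩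
    rw [dist_eq_norm, ← map_sub]
    rw [dist_eq_norm] at hst
    exact (γ_norm G z _).trans_lt hst
  refine D.gen T' hcl ?_ ?_ b hb
  · intro a ha
    change Continuous (fun z : Circle => G.γ z a)
    simp only [G.fixA _ a ha]
    exact continuous_const
  · intro x hx
    change Continuous (fun z : Circle => G.γ z x)
    simp only [G.actX _ x hx]
    exact continuous_subtype_val.smul continuous_const

/-- the orbit function -/
def orb (b : B) (θ : AddCircle (1 : ℝ)) : B := G.γ (toCircle θ) b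

lemma orb_cont' (b : D.T) : Continuous (orb G (b : B)) :=
  (orb_cont G b b.2).comp continuous_toCircle

lemma int_of_cont (f : AddCircle (1 : ℝ) → B) (hf : Continuous f) :
    Integrable f haarAddCircle :=
  hf.integrable_of_hasCompactSupport (HasCompactSupport.of_compactSpace f)

/-- integer Fourier coefficients -/
def Ψ (n : ℤ) : D.T →ₗ[ℂ] B where
  toFun b := fourierCoeff (orb G (b : B)) n
  map_add' b b' := by
    have h1 : orb G ((b + b' : D.T) : B) = orb G (b : B) + orb G (b' : B) := by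
      funext θ
      change G.γ _ ((b : B) + (b' : B)) = _
      rw [map_add]; rfl
    rw [h1, fourierCoeff.add (int_of_cont _ (orb_cont' G b)) (int_of_cont _ (orb_cont' G b'))]
    rfl
  map_smul' r b := by
    have h1 : orb G ((r • b : D.T) : B) = r • orb G (b : B) := by
      funext θ
      change G.γ _ (r • (b : B)) = _
      rw [map_smul]; rfl
    rw [h1, fourierCoeff.const_smul]
    rfl

lemma Ψ_def (n : ℤ) (b : D.T) : Ψ G n b =
    ∫ θ : AddCircle (1 : ℝ), fourier (-n) θ • orb G (b : B) θ ∂haarAddCircle := rfl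

lemma Ψ_norm (n : ℤ) (b : D.T) : ‖Ψ G n b‖ ≤ ‖(b : B)‖ := by
  rw [Ψ_def]
  have h1 : ∀ᵐ θ ∂(haarAddCircle (T := (1 : ℝ))), ‖fourier (-n) θ • orb G (b : B) θ‖ ≤ ‖(b : B)‖ := by
    filter_upwards with θ
    rw [norm_smul, fourier_apply, Circle.norm_coe, one_mul]
    exact γ_norm G _ _
  have := norm_integral_le_of_norm_le_const h1
  simpa using this

lemma Ψ_mulA (n : ℤ) (b d : D.T) (hd : (d : B) ∈ D.A) : Ψ G n (b * d) = Ψ G n b * d := by
  rw [Ψ_def, Ψ_def]
  have h1 : ∀ θ, fourier (-n) θ • orb G ((b * d : D.T) : B) θ =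
      (ContinuousLinearMap.mul ℂ B).flip (d : B) (fourier (-n) θ • orb G (b : B) θ) := by
    intro θ
    change fourier (-n) θ • G.γ _ ((b : B) * (d : B)) = (fourier (-n) θ • orb G (b : B) θ) * d
    rw [map_mul, G.fixA _ d hd, smul_mul_assoc]; rfl
  simp_rw [h1]
  rw [ContinuousLinearMap.integral_comp_comm]
  · rfl
  · exact int_of_cont _ ((fourier (-n)).continuous.smul (orb_cont' G b))

lemma Ψ_mulX (n : ℤ) (b ξ : D.T) (hξ : (ξ : B) ∈ D.X) :
    Ψ G n (b * ξ) = Ψ G (n - 1) b * ξ := by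
  rw [Ψ_def, Ψ_def]
  have h1 : ∀ θ, fourier (-n) θ • orb G ((b * ξ : D.T) : B) θ =
      (ContinuousLinearMap.mul ℂ B).flip (ξ : B) (fourier (-(n - 1)) θ • orb G (b : B) θ) := by
    intro θ
    change fourier (-n) θ • G.γ _ ((b : B) * (ξ : B)) =
      (fourier (-(n - 1)) θ • orb G (b : B) θ) * ξ
    have h2 : fourier (-(n - 1)) θ = fourier (-n) θ * (toCircle θ : ℂ) := by
      have e : -(n - 1) = -n + 1 := by ring
      rw [e, fourier_add, fourier_one]
    rw [map_mul, G.actX _ ξ hξ, h2, mul_smul_comm, smul_smul, smul_mul_assoc]; rfl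
  simp_rw [h1]
  rw [ContinuousLinearMap.integral_comp_comm]
  · rfl
  · exact int_of_cont _ ((fourier (-(n - 1))).continuous.smul (orb_cont' G b))

lemma Ψ_hom (n m : ℤ) (b : D.T) (h : ∀ θ : AddCircle (1 : ℝ), orb G (b : B) θ =
    fourier m θ • (b : B)) : Ψ G n b = if n = m then (b : B) else 0 := by
  rw [Ψ_def]
  have h1 : ∀ θ, fourier (-n) θ • orb G (b : B) θ = (fourier (-n) θ • fourier m θ) • (b : B) := by
    intro θ
    rw [h, smul_assoc]
  simp_rw [h1]
  rw [integral_smul_const]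
  have h2 : ∫ θ : AddCircle (1 : ℝ), fourier (-n) θ • fourier m θ ∂haarAddCircle =
      fourierCoeff (fourier (T := (1 : ℝ)) m) n := rfl
  rw [h2, fourierCoeff_fourier]
  by_cases hnm : n = m
  · subst hnm; simp
  · rw [if_neg hnm, Pi.single_eq_of_ne hnm, zero_smul]

/-- the homogeneous subspaces -/
def W (D : Amb B) : ℕ → Submodule ℂ B
  | 0 => D.A.toSubmodule
  | 1 => D.X
  | n + 2 => (Submodule.span ℂ {y : B | ∃ w ∈ W D (n + 1), ∃ x ∈ D.X, y = w * x}).topologicalClosure

lemma W_closed : ∀ n, IsClosed (W D n : Set B)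
  | 0 => D.clA
  | 1 => D.clX
  | _ + 2 => Submodule.isClosed_topologicalClosure _

lemma W_mulX (n : ℕ) (w x : B) (hw : w ∈ W D n) (hx : x ∈ D.X) : w * x ∈ W D (n + 1) := by
  cases n with
  | zero => exact D.AX w hw x hx
  | succ n =>
    apply Submodule.le_topologicalClosure
    exact Submodule.subset_span ⟨w, hw, x, hx, rfl⟩

/-- closed-subspace induction -/
lemma clos_ind (s : Set B) (V : Submodule ℂ B) (hV : IsClosed (V : Set B)) (h : s ⊆ V) {y : B}
    (hy : y ∈ (Submodule.span ℂ s).topologicalClosure) : y ∈ V :=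
  Submodule.topologicalClosure_minimal _ (Submodule.span_le.2 h) hV hy

lemma W_mulA : ∀ (n : ℕ) (w d : B), w ∈ W D n → d ∈ D.A → w * d ∈ W D n
  | 0, w, d, hw, hd => mul_mem (S := NonUnitalStarSubalgebra ℂ B) (s := D.A) hw hd
  | 1, w, d, hw, hd => D.XA w hw d hd
  | n + 2, w, d, hw, hd => by
    have h1 : w ∈ (W D (n + 2)).comap (LinearMap.mulRight ℂ d) := by
      refine clos_ind _ _ ?_ ?_ hw
      · exact (W_closed (n + 2)).preimage (continuous_mul_const d)
      · rintro y ⟨u, hu, x, hx, rfl⟩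
        change u * x * d ∈ W D (n + 2)
        rw [mul_assoc]
        exact W_mulX (n + 1) u _ hu (D.XA x hx d hd)
    exact h1

lemma W_inner : ∀ (n : ℕ) (w w' : B), w ∈ W D n → w' ∈ W D n → star w * w' ∈ D.A
  | 0, w, w', hw, hw' => by
    have h1 : w ∈ D.A := hw
    have h2 : w' ∈ D.A := hw'
    exact mul_mem (star_mem h1) h2
  | 1, w, w', hw, hw' => D.XX w hw w' hw'
  | n + 2, w, w', hw, hw' => by
    have hA : IsClosed (D.A.toSubmodule : Set B) := D.clA
    -- first, `w` a generator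
    have h1 : ∀ u ∈ W D (n + 1), ∀ x ∈ D.X, ∀ w' ∈ W D (n + 2), star (u * x) * w' ∈ D.A := by
      intro u hu x hx w' hw'
      have h2 : w' ∈ D.A.toSubmodule.comap (LinearMap.mulLeft ℂ (star (u * x))) := by
        refine clos_ind _ _ ?_ ?_ hw'
        · exact hA.preimage (continuous_const_mul _)
        · rintro y ⟨v, hv, z, hz, rfl⟩
          change star (u * x) * (v * z) ∈ D.A
          have e : star (u * x) * (v * z) = star x * ((star u * v) * z) := by
            rw [star_mul]; simp only [mul_assoc]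
          rw [e]
          exact D.XX x hx _ (D.AX _ (W_inner (n + 1) u v hu hv) z hz)
      exact h2
    have h3 : w ∈ D.A.toSubmodule.comap (LinearMap.mulLeft ℂ (star w')) := by
      refine clos_ind _ _ ?_ ?_ hw
      · exact hA.preimage (continuous_const_mul _)
      · rintro y ⟨u, hu, x, hx, rfl⟩
        change star w' * (u * x) ∈ D.A
        have := star_mem (h1 u hu x hx w' hw')
        rwa [star_mul, star_star] at this
    have h4 : star w' * w ∈ D.A := h3
    have := star_mem h4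
    rwa [star_mul, star_star] at this

/-- a closed subspace of `B` stable under right multiplication by `A` and `X` and containing
them contains `T` -/
lemma gen_right (V : Submodule ℂ B) (hV : IsClosed (V : Set B)) (hA : ∀ a ∈ D.A, a ∈ V)
    (hX : ∀ x ∈ D.X, x ∈ V) (hVA : ∀ v ∈ V, ∀ a ∈ D.A, v * a ∈ V)
    (hVX : ∀ v ∈ V, ∀ x ∈ D.X, v * x ∈ V) : ∀ t ∈ D.T, t ∈ V := by
  let T' : NonUnitalSubalgebra ℂ B :=
    { carrier := {t | t ∈ V ∧ ∀ v ∈ V, v * t ∈ V}
      mul_mem' := by
        rintro s t ⟨hs1, hs2⟩ ⟨ht1, ht2⟩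
        refine ⟨ht2 s hs1, fun v hv => ?_⟩
        rw [← mul_assoc]
        exact ht2 _ (hs2 v hv)
      add_mem' := by
        rintro s t ⟨hs1, hs2⟩ ⟨ht1, ht2⟩
        refine ⟨add_mem hs1 ht1, fun v hv => ?_⟩
        rw [mul_add]
        exact add_mem (hs2 v hv) (ht2 v hv)
      zero_mem' := ⟨zero_mem _, fun v _ => by rw [mul_zero]; exact zero_mem _⟩
      smul_mem' := by
        rintro r t ⟨ht1, ht2⟩
        refine ⟨Submodule.smul_mem _ r ht1, fun v hv => ?_⟩
        rw [mul_smul_comm]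
        exact Submodule.smul_mem _ r (ht2 v hv) }
  have hcl : IsClosed (T' : Set B) := by
    have : (T' : Set B) = (V : Set B) ∩ ⋂ v ∈ V, (fun t => v * t) ⁻¹' (V : Set B) := by
      ext t
      simp only [Set.mem_inter_iff, Set.mem_iInter, Set.mem_preimage, SetLike.mem_coe]
      rfl
    rw [this]
    refine hV.inter (isClosed_biInter fun v _ => hV.preimage (by fun_prop))
  intro t ht
  exact (D.gen T' hcl (fun a ha => ⟨hA a ha, fun v hv => hVA v hv a ha⟩)
    (fun x hx => ⟨hX x hx, fun v hv => hVX v hv x hx⟩) t ht).1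

/-- support of the Fourier coefficients -/
lemma Ψ_mem (b : D.T) : (∀ n : ℕ, Ψ G n b ∈ W D n) ∧ ∀ n : ℤ, n < 0 → Ψ G n b = 0 := by
  -- a subspace of `B`
  let V0 : Submodule ℂ D.T :=
    { carrier := {b | (∀ n : ℕ, Ψ G n b ∈ W D n) ∧ ∀ n : ℤ, n < 0 → Ψ G n b = 0}
      add_mem' := by
        rintro s t ⟨hs1, hs2⟩ ⟨ht1, ht2⟩
        refine ⟨fun n => ?_, fun n hn => ?_⟩
        · rw [map_add]; exact add_mem (hs1 n) (ht1 n)
        · rw [map_add, hs2 n hn, ht2 n hn, add_zero]
      zero_mem' := ⟨fun n => by rw [map_zero]; exact zero_mem _, fun n _ => map_zero _⟩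
      smul_mem' := by
        rintro r t ⟨ht1, ht2⟩
        refine ⟨fun n => ?_, fun n hn => ?_⟩
        · rw [map_smul]; exact Submodule.smul_mem _ r (ht1 n)
        · rw [map_smul, ht2 n hn, smul_zero] }
  have hcont : ∀ n : ℤ, Continuous (Ψ G n) := by
    intro n
    exact AddMonoidHomClass.continuous_of_bound (Ψ G n) 1 (fun b => by
      rw [one_mul]; exact Ψ_norm G n b)
  have hV0 : IsClosed (V0 : Set D.T) := by
    have : (V0 : Set D.T) = (⋂ n : ℕ, (Ψ G n) ⁻¹' (W D n : Set B)) ∩
        ⋂ n : ℤ, ⋂ _ : n < 0, (Ψ G n) ⁻¹' {0} := by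
      ext t
      simp only [Set.mem_inter_iff, Set.mem_iInter, Set.mem_preimage, SetLike.mem_coe,
        Set.mem_singleton_iff]
      rfl
    rw [this]
    refine (isClosed_iInter fun n => (W_closed n).preimage (hcont n)).inter
      (isClosed_iInter fun n => isClosed_iInter fun _ => isClosed_singleton.preimage (hcont n))
  let V : Submodule ℂ B := V0.map (D.T.toSubmodule.subtype)
  have hVmem : ∀ t : B, t ∈ V ↔ ∃ h : t ∈ D.T, (⟨t, h⟩ : D.T) ∈ V0 := by
    intro t
    constructor
    · rintro ⟨s, hs, rfl⟩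
      exact ⟨s.2, hs⟩
    · rintro ⟨h, hs⟩
      exact ⟨⟨t, h⟩, hs, rfl⟩
  have hVcl : IsClosed (V : Set B) := by
    have h1 : (V : Set B) = (Subtype.val : D.T → B) '' (V0 : Set D.T) := by
      ext t
      rw [SetLike.mem_coe, hVmem]
      constructor
      · rintro ⟨h, hs⟩; exact ⟨⟨t, h⟩, hs, rfl⟩
      · rintro ⟨s, hs, rfl⟩; exact ⟨s.2, hs⟩
    rw [h1]
    exact (D.clT.isClosedEmbedding_subtypeVal).isClosedMap _ hV0
  have key := gen_right (D := D) V hVcl ?_ ?_ ?_ ?_ b b.2
  · rw [hVmem] at key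
    exact key.2
  · intro a ha
    rw [hVmem]
    refine ⟨D.AT a ha, ?_⟩
    have h0 : ∀ n : ℤ, Ψ G n ⟨a, D.AT a ha⟩ = if n = 0 then a else 0 := by
      intro n
      apply Ψ_hom G n 0 ⟨a, D.AT a ha⟩
      intro θ
      rw [fourier_zero, one_smul]
      exact G.fixA _ a ha
    refine ⟨fun n => ?_, fun n hn => ?_⟩
    · rw [h0]
      cases n with
      | zero => exact ha
      | succ n =>
        rw [if_neg (by omega)]
        exact zero_mem _
    · rw [h0, if_neg (by omega)]
  · intro x hx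
    rw [hVmem]
    refine ⟨D.XT x hx, ?_⟩
    have h0 : ∀ n : ℤ, Ψ G n ⟨x, D.XT x hx⟩ = if n = 1 then x else 0 := by
      intro n
      apply Ψ_hom G n 1 ⟨x, D.XT x hx⟩
      intro θ
      rw [fourier_one]
      exact G.actX _ x hx
    refine ⟨fun n => ?_, fun n hn => ?_⟩
    · rw [h0]
      match n with
      | 0 => rw [if_neg (by omega)]; exact zero_mem _
      | 1 => rw [if_pos (by norm_num)]; exact hx
      | n + 2 => rw [if_neg (by omega)]; exact zero_mem _
    · rw [h0, if_neg (by omega)]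
  · intro v hv a ha
    rw [hVmem] at hv ⊢
    obtain ⟨hvT, hv1, hv2⟩ := hv
    refine ⟨mul_mem hvT (D.AT a ha), ?_⟩
    have e : (⟨v * a, mul_mem hvT (D.AT a ha)⟩ : D.T) = ⟨v, hvT⟩ * ⟨a, D.AT a ha⟩ := rfl
    rw [e]
    refine ⟨fun n => ?_, fun n hn => ?_⟩
    · rw [Ψ_mulA G n ⟨v, hvT⟩ ⟨a, D.AT a ha⟩ ha]
      exact W_mulA n _ _ (hv1 n) ha
    · rw [Ψ_mulA G n ⟨v, hvT⟩ ⟨a, D.AT a ha⟩ ha, hv2 n hn, zero_mul]
  · intro v hv x hx
    rw [hVmem] at hv ⊢
    obtain ⟨hvT, hv1, hv2⟩ := hv
    refine ⟨mul_mem hvT (D.XT x hx), ?_⟩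
    have e : (⟨v * x, mul_mem hvT (D.XT x hx)⟩ : D.T) = ⟨v, hvT⟩ * ⟨x, D.XT x hx⟩ := rfl
    rw [e]
    refine ⟨fun n => ?_, fun n hn => ?_⟩
    · rw [Ψ_mulX G n ⟨v, hvT⟩ ⟨x, D.XT x hx⟩ hx]
      cases n with
      | zero =>
        rw [hv2 _ (by norm_num), zero_mul]; exact zero_mem _
      | succ n =>
        have : ((n + 1 : ℕ) : ℤ) - 1 = n := by push_cast; ring
        rw [this]
        exact W_mulX n _ _ (hv1 n) hx
    · rw [Ψ_mulX G n ⟨v, hvT⟩ ⟨x, D.XT x hx⟩ hx, hv2 _ (by omega), zero_mul]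

/-- the gauge automorphism at `1` is the identity on `T` -/
lemma γ_one (b : B) (hb : b ∈ D.T) : G.γ 1 b = b := by
  let T' : NonUnitalSubalgebra ℂ B :=
    { carrier := {t | G.γ 1 t = t}
      mul_mem' := by
        intro s t hs ht
        simp only [Set.mem_ofPred_eq, map_mul] at *
        rw [hs, ht]
      add_mem' := by
        intro s t hs ht
        simp only [Set.mem_ofPred_eq, map_add] at *
        rw [hs, ht]
      zero_mem' := by
        simp only [Set.mem_ofPred_eq, map_zero]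
      smul_mem' := by
        intro r t ht
        simp only [Set.mem_ofPred_eq, map_smul] at *
        rw [ht] }
  have hc : Continuous (G.γ 1) :=
    AddMonoidHomClass.continuous_of_bound (G.γ 1) 1 (fun b => by
      rw [one_mul]; exact γ_norm G 1 b)
  have hcl : IsClosed (T' : Set B) := isClosed_eq hc continuous_id
  refine D.gen T' hcl ?_ ?_ b hb
  · intro a ha; exact G.fixA 1 a ha
  · intro x hx
    change G.γ 1 x = x
    rw [G.actX 1 x hx, Circle.coe_one, one_smul]

lemma Ψ_uniq (b : D.T) (h : ∀ n : ℤ, Ψ G n b = 0) : b = 0 := by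
  apply Subtype.ext
  change (b : B) = 0
  rw [SeparatingDual.eq_zero_iff_forall_dual_eq_zero (R := ℂ)]
  intro f
  let u : C(AddCircle (1 : ℝ), ℂ) := ⟨fun θ => f (orb G (b : B) θ), f.continuous.comp (orb_cont' G b)⟩
  have hu : ∀ n : ℤ, fourierCoeff u n = 0 := by
    intro n
    have h1 : fourierCoeff u n = f (Ψ G n b) := by
      rw [Ψ_def, ← ContinuousLinearMap.integral_comp_comm]
      · change ∫ θ : AddCircle (1 : ℝ), fourier (-n) θ • f (orb G (b : B) θ) ∂haarAddCircle = _
        congr 1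
        funext θ
        rw [map_smul]
      · exact int_of_cont _ ((fourier (-n)).continuous.smul (orb_cont' G b))
    rw [h1, h n, map_zero]
  have hs : Summable (fourierCoeff u) := by
    have : fourierCoeff (u : AddCircle (1 : ℝ) → ℂ) = fun _ => 0 := funext hu
    rw [this]; exact summable_zero
  have h1 := hasSum_fourier_series_of_summable hs
  have h2 : u = 0 := by
    refine h1.unique ?_
    have : (fun i : ℤ => fourierCoeff u i • fourier (T := (1 : ℝ)) i) = fun _ => 0 := by
      funext i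
      rw [hu]
      ext θ
      simp
    rw [this]; exact hasSum_zero
  have h3 : u 0 = 0 := by rw [h2]; rfl
  have h4 : u 0 = f (G.γ (toCircle (0 : AddCircle (1 : ℝ))) (b : B)) := rfl
  rw [h4, AddCircle.toCircle_zero, γ_one G b b.2] at h3
  exact h3

/-- the Fourier data -/
def fou : Fou D where
  Φ n := Ψ G n
  norm_le n b := Ψ_norm G n b
  mulA n b d hd := Ψ_mulA G n b d hd
  mulX0 b ξ hξ := by
    have := Ψ_mulX G 0 b ξ hξ
    rw [(Ψ_mem G b).2 _ (by norm_num), zero_mul] at this
    exact this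
  mulX n b ξ hξ := by
    have := Ψ_mulX G ((n + 1 : ℕ) : ℤ) b ξ hξ
    have e : ((n + 1 : ℕ) : ℤ) - 1 = n := by push_cast; ring
    rw [e] at this
    exact this
  inner n b b' := W_inner n _ _ ((Ψ_mem G b).1 n) ((Ψ_mem G b').1 n)
  uniq b h := Ψ_uniq G b (fun n => by
    rcases lt_or_ge n 0 with hn | hn
    · exact (Ψ_mem G b).2 n hn
    · obtain ⟨m, rfl⟩ := Int.eq_ofNat_of_zero_le hn
      exact h m)

end Pool.Agent.H668R3.LLM
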