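import Mathlib

/-! Partition of unity and the zero product property -/

set_option autoImplicit false

open Filter Topology Finset

noncomputable section

namespace Pool.Agent.H668R3.LLM

/-! ### the algebraic part -/

section alg

variable {V Z : Type*} [AddCommGroup V] [Module ℂ V] [NormedAddCommGroup Z] [NormedSpace ℂ Z]

lemma bil_sum (Ψ : V →ₗ[ℂ] V →ₗ[ℂ] Z) (p q : ℕ → V) (s t : Finset ℕ) :
    Ψ (∑ i ∈ s, p i) (∑ j ∈ t, q j) = ∑ i ∈ s, ∑ j ∈ t, Ψ (p i) (q j) := by
  simp only [map_sum, LinearMap.sum_apply]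
  exact Finset.sum_comm

lemma pu_alg (Ψ : V →ₗ[ℂ] V →ₗ[ℂ] Z) (p : ℕ → V) (N : ℕ) (r h K : ℝ) (e d : V) (hh : 0 ≤ h)
    (h1 : ∑ i ∈ range (N + 1), p i = e)
    (h2 : ∑ i ∈ range (N + 1), ((-r + i * h : ℝ) : ℂ) • p i = d)
    (h3 : ∀ i j, i + 2 ≤ j → Ψ (p i) (p j) = 0) (h4 : ∀ i j, i + 2 ≤ j → Ψ (p j) (p i) = 0)
    (h5 : ∀ J J' : Finset ℕ, J ⊆ range (N + 1) → J' ⊆ range (N + 1) →
      ‖Ψ (∑ i ∈ J, p i) (∑ i ∈ J', p i)‖ ≤ K) :
    ‖Ψ d e - Ψ e d‖ ≤ 6 * h * K := by
  -- the two sums
  have hA : ∀ f : ℕ → ℕ → Z, (∀ i j, i + 2 ≤ j → f i j = 0) → (∀ i j, i + 2 ≤ j → f j i = 0) →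
      (∀ i, f i i = 0) → ∑ i ∈ range (N + 1), ∑ j ∈ range (N + 1), f i j =
        ∑ i ∈ range N, (f i (i + 1) + f (i + 1) i) := by
    intro f hf1 hf2 hf3
    have hdec : ∀ i j, f i j = (if j = i + 1 then f i (i + 1) else 0) +
        (if i = j + 1 then f (j + 1) j else 0) := by
      intro i j
      rcases lt_trichotomy i j with hij | hij | hij
      · by_cases h : j = i + 1
        · subst h; rw [if_pos rfl, if_neg (by omega), add_zero]
        · rw [if_neg h, if_neg (by omega), hf1 i j (by omega)]; simp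
      · subst hij
        rw [if_neg (by omega), if_neg (by omega), hf3]; simp
      · by_cases h : i = j + 1
        · subst h; rw [if_neg (by omega), if_pos rfl, zero_add]
        · rw [if_neg h, if_neg (by omega), hf2 j i (by omega)]; simp
    have e1 : ∑ i ∈ range (N + 1), ∑ j ∈ range (N + 1), (if j = i + 1 then f i (i + 1) else 0) =
        ∑ i ∈ range N, f i (i + 1) := by
      rw [Finset.sum_range_succ]
      have : ∑ j ∈ range (N + 1), (if j = N + 1 then f N (N + 1) else 0) = 0 := by
        apply Finset.sum_eq_zero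
        intro j hj
        rw [Finset.mem_range] at hj
        rw [if_neg (by omega)]
      rw [this, add_zero]
      refine Finset.sum_congr rfl fun i hi => ?_
      rw [Finset.mem_range] at hi
      rw [Finset.sum_ite_eq' (range (N + 1)) (i + 1) (fun _ => f i (i + 1)), if_pos]
      rw [Finset.mem_range]; omega
    have e2 : ∑ i ∈ range (N + 1), ∑ j ∈ range (N + 1), (if i = j + 1 then f (j + 1) j else 0) =
        ∑ i ∈ range N, f (i + 1) i := by
      rw [Finset.sum_comm, Finset.sum_range_succ]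
      have : ∑ i ∈ range (N + 1), (if i = N + 1 then f (N + 1) N else 0) = 0 := by
        apply Finset.sum_eq_zero
        intro j hj
        rw [Finset.mem_range] at hj
        rw [if_neg (by omega)]
      rw [this, add_zero]
      refine Finset.sum_congr rfl fun i hi => ?_
      rw [Finset.mem_range] at hi
      rw [Finset.sum_ite_eq' (range (N + 1)) (i + 1) (fun _ => f (i + 1) i), if_pos]
      rw [Finset.mem_range]; omega
    calc ∑ i ∈ range (N + 1), ∑ j ∈ range (N + 1), f i j
        = ∑ i ∈ range (N + 1), ∑ j ∈ range (N + 1), ((if j = i + 1 then f i (i + 1) else 0) +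
          (if i = j + 1 then f (j + 1) j else 0)) :=
          Finset.sum_congr rfl fun i _ => Finset.sum_congr rfl fun j _ => hdec i j
      _ = _ := by
        simp only [Finset.sum_add_distrib]
        rw [e1, e2]
  have hdiff : Ψ d e - Ψ e d = (h : ℂ) • (∑ i ∈ range N, (Ψ (p (i + 1)) (p i) -
      Ψ (p i) (p (i + 1)))) := by
    have hL : Ψ d e = ∑ i ∈ range (N + 1), ∑ j ∈ range (N + 1),
        ((-r + i * h : ℝ) : ℂ) • Ψ (p i) (p j) := by
      rw [← h1, ← h2, bil_sum Ψ (fun i => ((-r + i * h : ℝ) : ℂ) • p i) p]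
      refine Finset.sum_congr rfl fun i _ => Finset.sum_congr rfl fun j _ => ?_
      rw [map_smul, LinearMap.smul_apply]
    have hR : Ψ e d = ∑ i ∈ range (N + 1), ∑ j ∈ range (N + 1),
        ((-r + j * h : ℝ) : ℂ) • Ψ (p i) (p j) := by
      rw [← h1, ← h2, bil_sum Ψ p (fun i => ((-r + i * h : ℝ) : ℂ) • p i)]
      refine Finset.sum_congr rfl fun i _ => Finset.sum_congr rfl fun j _ => ?_
      rw [map_smul]
    rw [hL, hR, ← Finset.sum_sub_distrib]
    simp only [← Finset.sum_sub_distrib, ← sub_smul]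
    rw [hA]
    · rw [Finset.smul_sum]
      refine Finset.sum_congr rfl fun i _ => ?_
      rw [smul_sub]
      have e1 : ((-r + i * h : ℝ) : ℂ) - ((-r + ((i + 1 : ℕ) : ℝ) * h : ℝ) : ℂ) = -(h : ℂ) := by
        push_cast; ring
      have e2 : ((-r + ((i + 1 : ℕ) : ℝ) * h : ℝ) : ℂ) - ((-r + i * h : ℝ) : ℂ) = (h : ℂ) := by
        push_cast; ring
      rw [e1, e2, neg_smul]
      abel
    · intro i j hij; rw [h3 i j hij, smul_zero]
    · intro i j hij; rw [h4 i j hij, smul_zero]
    · intro i; rw [sub_self, zero_smul]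
  -- residue classes
  have hres : ∀ (a : ℕ), ‖∑ i ∈ (range N).filter (fun i => i % 3 = a), Ψ (p (i + 1)) (p i)‖ ≤ K ∧
      ‖∑ i ∈ (range N).filter (fun i => i % 3 = a), Ψ (p i) (p (i + 1))‖ ≤ K := by
    intro a
    set J := (range N).filter (fun i => i % 3 = a) with hJ
    have hJ1 : J ⊆ range (N + 1) := by
      intro i hi
      rw [hJ, Finset.mem_filter, Finset.mem_range] at hi
      rw [Finset.mem_range]; omega
    have hJ2 : J.map ⟨fun i => i + 1, fun a b h => by simpa using h⟩ ⊆ range (N + 1) := by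
      intro i hi
      rw [Finset.mem_map] at hi
      obtain ⟨j, hj, rfl⟩ := hi
      rw [hJ, Finset.mem_filter, Finset.mem_range] at hj
      rw [Finset.mem_range]
      change j + 1 < N + 1
      omega
    have hs : ∑ i ∈ J.map ⟨fun i => i + 1, fun a b h => by simpa using h⟩, p i =
        ∑ i ∈ J, p (i + 1) := by
      rw [Finset.sum_map]; rfl
    constructor
    · have := h5 _ _ hJ2 hJ1
      rw [hs, bil_sum Ψ (fun i => p (i + 1)) p] at this
      have h6 : ∑ i ∈ J, ∑ j ∈ J, Ψ (p (i + 1)) (p j) = ∑ i ∈ J, Ψ (p (i + 1)) (p i) := by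
        refine Finset.sum_congr rfl fun i hi => ?_
        apply Finset.sum_eq_single_of_mem i hi
        intro j hj hji
        rw [hJ, Finset.mem_filter] at hi hj
        rcases lt_trichotomy i j with hij | hij | hij
        · exact h3 _ _ (by omega)
        · exact absurd hij.symm hji
        · exact h4 _ _ (by omega)
      rw [h6] at this
      exact this
    · have := h5 _ _ hJ1 hJ2
      rw [hs, bil_sum Ψ p (fun i => p (i + 1))] at this
      have h6 : ∑ i ∈ J, ∑ j ∈ J, Ψ (p i) (p (j + 1)) = ∑ i ∈ J, Ψ (p i) (p (i + 1)) := by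
        refine Finset.sum_congr rfl fun i hi => ?_
        apply Finset.sum_eq_single_of_mem i hi
        intro j hj hji
        rw [hJ, Finset.mem_filter] at hi hj
        rcases lt_trichotomy i j with hij | hij | hij
        · exact h3 _ _ (by omega)
        · exact absurd hij.symm hji
        · exact h4 _ _ (by omega)
      rw [h6] at this
      exact this
  have hsplit : ∀ f : ℕ → Z, ∑ i ∈ range N, f i =
      ∑ a ∈ range 3, ∑ i ∈ (range N).filter (fun i => i % 3 = a), f i := by
    intro f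
    rw [Finset.sum_fiberwise_of_maps_to]
    intro i _
    rw [Finset.mem_range]; exact Nat.mod_lt _ (by norm_num)
  have hb1 : ‖∑ i ∈ range N, Ψ (p (i + 1)) (p i)‖ ≤ 3 * K := by
    rw [hsplit]
    refine (norm_sum_le _ _).trans ?_
    calc ∑ a ∈ range 3, ‖∑ i ∈ (range N).filter (fun i => i % 3 = a), Ψ (p (i + 1)) (p i)‖
        ≤ ∑ a ∈ range 3, K := Finset.sum_le_sum fun a _ => (hres a).1
      _ = 3 * K := by simp
  have hb2 : ‖∑ i ∈ range N, Ψ (p i) (p (i + 1))‖ ≤ 3 * K := by
    rw [hsplit]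
    refine (norm_sum_le _ _).trans ?_
    calc ∑ a ∈ range 3, ‖∑ i ∈ (range N).filter (fun i => i % 3 = a), Ψ (p i) (p (i + 1))‖
        ≤ ∑ a ∈ range 3, K := Finset.sum_le_sum fun a _ => (hres a).2
      _ = 3 * K := by simp
  rw [hdiff, norm_smul, Complex.norm_real, Real.norm_eq_abs, abs_of_nonneg hh,
    Finset.sum_sub_distrib]
  calc h * ‖∑ i ∈ range N, Ψ (p (i + 1)) (p i) - ∑ i ∈ range N, Ψ (p i) (p (i + 1))‖
      ≤ h * (3 * K + 3 * K) := by
        apply mul_le_mul_of_nonneg_left _ hh
        exact (norm_sub_le _ _).trans (add_le_add hb1 hb2)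
    _ = 6 * h * K := by ring

end alg

/-! ### the functions -/

/-- clamp -/
def cl (u : ℝ) : ℝ := min 1 (max 0 u)

lemma cl_cont : Continuous cl := by unfold cl; fun_prop

lemma cl_mono : Monotone cl := fun _ _ h => min_le_min_left _ (max_le_max_left _ h)

lemma cl_one {u : ℝ} (h : 1 ≤ u) : cl u = 1 := by
  unfold cl; rw [max_eq_right (by linarith), min_eq_left h]

lemma cl_zero {u : ℝ} (h : u ≤ 0) : cl u = 0 := by
  unfold cl; rw [max_eq_left h, min_eq_right (by norm_num)]

/-- the tent functions -/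
def tent (u : ℝ) (i : ℕ) : ℝ := cl (u + 1 - i) - cl (u + 1 - (i + 1 : ℕ))

lemma tent_nonneg (u : ℝ) (i : ℕ) : 0 ≤ tent u i := by
  unfold tent
  have := cl_mono (show u + 1 - ((i + 1 : ℕ) : ℝ) ≤ u + 1 - (i : ℝ) by push_cast; linarith)
  linarith

lemma tent_zero {u : ℝ} {i : ℕ} (h : tent u i ≠ 0) : (i : ℝ) - 1 < u ∧ u < i + 1 := by
  constructor
  · by_contra hlt
    push Not at hlt
    apply h
    unfold tent
    rw [cl_zero (by linarith), cl_zero (by push_cast; linarith), sub_zero]
  · by_contra hlt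
    push Not at hlt
    apply h
    unfold tent
    rw [cl_one (by linarith), cl_one (by push_cast; linarith), sub_self]

lemma tent_sum (u : ℝ) (N : ℕ) (h0 : 0 ≤ u) (hN : u ≤ N) :
    ∑ i ∈ range (N + 1), tent u i = 1 := by
  unfold tent
  rw [Finset.sum_range_sub' (fun i : ℕ => cl (u + 1 - i))]
  rw [cl_one (by push_cast; linarith), cl_zero (by push_cast; linarith), sub_zero]

lemma abel_id (s : ℕ → ℝ) (N : ℕ) : ∑ i ∈ range (N + 1), (i : ℝ) * (s i - s (i + 1)) =
    ∑ i ∈ range N, s (i + 1) - N * s (N + 1) := by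
  induction N with
  | zero => simp
  | succ N ih =>
    rw [Finset.sum_range_succ, ih, Finset.sum_range_succ]
    push_cast
    ring

lemma cl_sum (u : ℝ) (N : ℕ) : ∑ i ∈ range N, cl (u - i) = min (N : ℝ) (max 0 u) := by
  induction N with
  | zero => simp
  | succ N ih =>
    rw [Finset.sum_range_succ, ih]
    unfold cl
    push_cast
    have hN : (0:ℝ) ≤ N := Nat.cast_nonneg N
    rcases le_total u 0 with h | h
    · rw [max_eq_left h, max_eq_left (by linarith), min_eq_right hN, min_eq_right (by norm_num),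
        min_eq_right (by linarith)]; ring
    · rw [max_eq_right h]
      rcases le_total u N with h2 | h2
      · rw [min_eq_right h2, max_eq_left (by linarith), min_eq_right (by norm_num),
          min_eq_right (by linarith)]; ring
      · rw [min_eq_left h2, max_eq_right (by linarith)]
        rcases le_total (u - N) 1 with h3 | h3
        · rw [min_eq_right h3, min_eq_right (by linarith)]; ring
        · rw [min_eq_left h3, min_eq_left (by linarith)]

lemma tent_sum' (u : ℝ) (N : ℕ) (h0 : 0 ≤ u) (hN : u ≤ N) :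
    ∑ i ∈ range (N + 1), (i : ℝ) * tent u i = u := by
  unfold tent
  rw [abel_id (fun i : ℕ => cl (u + 1 - i))]
  have h1 : ∀ i ∈ range N, cl (u + 1 - ((i + 1 : ℕ) : ℝ)) = cl (u - i) := by
    intro i _; congr 1; push_cast; ring
  rw [Finset.sum_congr rfl h1, cl_sum, cl_zero (by push_cast; linarith), max_eq_right h0,
    min_eq_right hN]
  ring

end Pool.Agent.H668R3.LLM
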