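import Pool.Agent.H668R3.LLM.Amb

/-! The defect of an approximately local left multiplier -/

set_option autoImplicit false

open Filter Topology Finset

noncomputable section

namespace Pool.Agent.H668R3.LLM

variable {B : Type*} [CStarAlgebra B] {D : Amb B} {S : D.T →L[ℂ] D.T}

lemma geom_mem (a x : B) (ha : a ∈ D.T) (hx : x ∈ D.T) (hx1 : ‖x‖ < 1) :
    a * ∑' i : ℕ, x ^ i ∈ D.T := by
  have hs : Summable (fun i : ℕ => x ^ i) := summable_geometric_of_norm_lt_one hx1
  rw [← hs.tsum_mul_left]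
  apply tsum_mem (s := D.T) D.clT
  intro i
  induction i with
  | zero => simpa using ha
  | succ i ih =>
    rw [pow_succ, ← mul_assoc]
    exact mul_mem ih hx

lemma norm_one_le' : ‖(1 : B)‖ ≤ 1 := by
  rcases subsingleton_or_nontrivial B with hB | hB
  · rw [Subsingleton.elim (1 : B) 0, norm_zero]; norm_num
  · rw [norm_one]

/-- the defect, as a map of `a` -/
def Vop (S : D.T →L[ℂ] D.T) (ξ : D.T) : D.T →L[ℂ] D.T where
  toFun a := S (a * ξ) - S a * ξ
  map_add' a b := by rw [add_mul, map_add, map_add, add_mul]; abel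
  map_smul' r a := by
    rw [smul_mul_assoc, map_smul, map_smul, smul_mul_assoc, ← smul_sub, RingHom.id_apply]
  cont := by fun_prop

/-- the defect, as a map of `ξ` -/
def vv (S : D.T →L[ℂ] D.T) (a : D.T) : D.T →L[ℂ] D.T where
  toFun ξ := S (a * ξ) - S a * ξ
  map_add' ξ η := by rw [mul_add, map_add, mul_add]; abel
  map_smul' r ξ := by
    rw [mul_smul_comm, map_smul, mul_smul_comm, ← smul_sub, RingHom.id_apply]
  cont := by fun_prop

lemma vv_apply (a ξ : D.T) : vv S a ξ = S (a * ξ) - S a * ξ := rfl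

lemma Vop_apply (a ξ : D.T) : Vop S ξ a = S (a * ξ) - S a * ξ := rfl

lemma V_zero (hS : ALM D S) (a ξ : D.T) (c : B) (h : (a : B) * c = 0) :
    ((S (a * ξ) - S a * ξ : D.T) : B) * c = 0 := by
  -- a bound for small `l`
  have key : ∀ l : ℝ, 0 < l → l * ‖(ξ : B)‖ ≤ 1 / 2 →
      ‖((S (a * ξ) - S a * ξ : D.T) : B) * c‖ ≤
        l * (‖S‖ * (‖(a : B)‖ * ‖(ξ : B)‖ * ‖(ξ : B)‖ * 2) * (‖c‖ + ‖c‖) +
          ‖(S (a * ξ) : B) * (ξ * c)‖) := by
    intro l hl hlx
    let x : B := -((l : ℂ) • (ξ : B))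
    have hxn : ‖x‖ = l * ‖(ξ : B)‖ := by
      rw [norm_neg, norm_smul, Complex.norm_real, Real.norm_eq_abs, abs_of_pos hl]
    have hx1 : ‖x‖ < 1 := by rw [hxn]; linarith
    have hxT : x ∈ D.T := neg_mem (SMulMemClass.smul_mem _ ξ.2)
    set u : B := ∑' i : ℕ, x ^ i with hu
    have hu1 : (1 - x) * u = 1 := mul_neg_geom_series x hx1
    have hu2 : u * (1 - x) = 1 := geom_series_mul_neg x hx1
    have hux : u = 1 + x * u := by
      have := hu1
      rw [sub_mul, one_mul] at this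
      rw [← this]; abel
    have hun : ‖u‖ ≤ 2 := by
      have h1 : ‖u‖ ≤ 1 + ‖x‖ * ‖u‖ := by
        calc ‖u‖ = ‖1 + x * u‖ := by rw [← hux]
          _ ≤ ‖(1 : B)‖ + ‖x * u‖ := norm_add_le _ _
          _ ≤ 1 + ‖x‖ * ‖u‖ := add_le_add norm_one_le' (norm_mul_le _ _)
      rw [hxn] at h1
      nlinarith [norm_nonneg u]
    let w : D.T := ⟨((a : B) * ξ * ξ) * u, geom_mem _ x (mul_mem (mul_mem a.2 ξ.2) ξ.2) hxT hx1⟩
    let z : D.T := ⟨(a : B) * u, geom_mem _ x a.2 hxT hx1⟩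
    have hz : z = a - (l : ℂ) • (a * ξ) + ((l : ℂ) * l) • w := by
      apply Subtype.ext
      change (a : B) * u = (a : B) - (l : ℂ) • ((a : B) * ξ) + ((l : ℂ) * l) •
        (((a : B) * ξ * ξ) * u)
      conv_lhs => rw [hux, hux]
      have hx' : x = -((l : ℂ) • (ξ : B)) := rfl
      rw [mul_add, mul_one, mul_add, mul_one, mul_add, hx']
      simp only [neg_mul, mul_neg, smul_mul_assoc, mul_smul_comm, smul_smul, neg_neg, smul_neg,
        mul_assoc]
      abel
    have hzc : (z : B) * (c - x * c) = 0 := by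
      change (a : B) * u * (c - x * c) = 0
      have : c - x * c = (1 - x) * c := by rw [sub_mul, one_mul]
      rw [this, mul_assoc, ← mul_assoc u, hu2, one_mul, h]
    have hSz := S_zero hS z _ hzc
    have hSa := S_zero hS a c h
    rw [hz, map_add, map_sub, map_smul, map_smul] at hSz
    have hSz' : ((S a : B) - (l : ℂ) • (S (a * ξ) : B) + ((l : ℂ) * l) • (S w : B)) *
        (c - x * c) = 0 := hSz
    have hcx : c - x * c = c + (l : ℂ) • ((ξ : B) * c) := by
      have hx' : x = -((l : ℂ) • (ξ : B)) := rfl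
      rw [hx', neg_mul, smul_mul_assoc]; abel
    rw [hcx] at hSz'
    have hmain : (l : ℂ) • (((S (a * ξ) - S a * ξ : D.T) : B) * c) =
        ((l : ℂ) * l) • ((S w : B) * (c + (l : ℂ) • ((ξ : B) * c)) -
          (S (a * ξ) : B) * (ξ * c)) := by
      have e1 : ((S (a * ξ) - S a * ξ : D.T) : B) = (S (a * ξ) : B) - (S a : B) * ξ := rfl
      rw [e1]
      have e2 : ((S a : B) - (l : ℂ) • (S (a * ξ) : B) + ((l : ℂ) * l) • (S w : B)) *
        (c + (l : ℂ) • ((ξ : B) * c)) = (S a : B) * c +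
          (l : ℂ) • ((S a : B) * ξ * c - (S (a * ξ) : B) * c) +
          ((l : ℂ) * l) • ((S w : B) * (c + (l : ℂ) • ((ξ : B) * c)) -
          (S (a * ξ) : B) * (ξ * c)) := by
        simp only [add_mul, sub_mul, mul_add, smul_mul_assoc, mul_smul_comm, smul_sub, smul_add,
          smul_smul, mul_assoc]
        abel
      rw [e2, hSa, zero_add] at hSz'
      have e3 := eq_neg_of_add_eq_zero_right hSz'
      rw [e3, ← smul_neg]
      congr 1
      rw [sub_mul]; abel
    have hl' : (l : ℂ) ≠ 0 := by exact_mod_cast hl.ne'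
    have hmain2 : ((S (a * ξ) - S a * ξ : D.T) : B) * c =
        (l : ℂ) • ((S w : B) * (c + (l : ℂ) • ((ξ : B) * c)) -
          (S (a * ξ) : B) * (ξ * c)) := by
      have := congrArg (fun t => (l : ℂ)⁻¹ • t) hmain
      beta_reduce at this
      rw [smul_smul, smul_smul, ← mul_assoc, inv_mul_cancel₀ hl', one_mul, one_smul] at this
      exact this
    rw [hmain2, norm_smul, Complex.norm_real, Real.norm_eq_abs, abs_of_pos hl]
    apply mul_le_mul_of_nonneg_left _ hl.le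
    refine (norm_sub_le _ _).trans (add_le_add ?_ le_rfl)
    refine (norm_mul_le _ _).trans ?_
    apply mul_le_mul _ _ (norm_nonneg _) (by
      have := ContinuousLinearMap.opNorm_nonneg S
      positivity)
    · refine (S_bound S w).trans (mul_le_mul_of_nonneg_left ?_
        (ContinuousLinearMap.opNorm_nonneg S))
      change ‖((a : B) * ξ * ξ) * u‖ ≤ _
      refine (norm_mul_le _ _).trans (mul_le_mul ?_ hun (norm_nonneg _) (by positivity))
      refine (norm_mul_le _ _).trans (mul_le_mul_of_nonneg_right ?_ (norm_nonneg _))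
      exact norm_mul_le _ _
    · refine (norm_add_le _ _).trans (add_le_add le_rfl ?_)
      rw [norm_smul, Complex.norm_real, Real.norm_eq_abs, abs_of_pos hl]
      calc l * ‖(ξ : B) * c‖ ≤ l * (‖(ξ : B)‖ * ‖c‖) :=
            mul_le_mul_of_nonneg_left (norm_mul_le _ _) hl.le
        _ = (l * ‖(ξ : B)‖) * ‖c‖ := by ring
        _ ≤ ‖c‖ := by nlinarith [norm_nonneg c]
  have hle : ‖((S (a * ξ) - S a * ξ : D.T) : B) * c‖ ≤ 0 := by
    set M := ‖S‖ * (‖(a : B)‖ * ‖(ξ : B)‖ * ‖(ξ : B)‖ * 2) * (‖c‖ + ‖c‖) +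
          ‖(S (a * ξ) : B) * (ξ * c)‖
    have hlim : Tendsto (fun l : ℝ => l * M) (𝓝[>] 0) (𝓝 0) := by
      have : Tendsto (fun l : ℝ => l * M) (𝓝 0) (𝓝 (0 * M)) := by
        exact (continuous_id.mul continuous_const).tendsto 0
      rw [zero_mul] at this
      exact this.mono_left nhdsWithin_le_nhds
    refine ge_of_tendsto hlim ?_
    have hev : ∀ᶠ l in 𝓝[>] (0:ℝ), l * ‖(ξ : B)‖ ≤ 1 / 2 := by
      have : Tendsto (fun l : ℝ => l * ‖(ξ : B)‖) (𝓝[>] 0) (𝓝 (0 * ‖(ξ : B)‖)) :=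
        ((continuous_id.mul continuous_const).tendsto 0).mono_left nhdsWithin_le_nhds
      rw [zero_mul] at this
      exact this.eventually_le_const (by norm_num)
    filter_upwards [hev, self_mem_nhdsWithin] with l h1 h2 using key l h2 h1
  exact norm_le_zero_iff.1 hle

lemma Vop_zl (hS : ALM D S) (ξ : D.T) : ZL (Vop S ξ) := fun a y _ h => V_zero hS a ξ y h

/-- `v (d ξ) = v (ξ) d` -/
lemma vv_left (hS : ALM D S) (a ξ d : D.T) (hd : (d : B) ∈ D.A) :
    vv S a (d * ξ) = vv S a ξ * d := by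
  have h1 := S_A (Vop_zl hS ξ) a d hd
  rw [Vop_apply, Vop_apply, S_A hS.zl a d hd] at h1
  rw [vv_apply, vv_apply, ← h1, mul_assoc, mul_assoc]

/-- `v (ξ d) = v (ξ) d` -/
lemma vv_right (hS : ALM D S) (a ξ d : D.T) (hd : (d : B) ∈ D.A) :
    vv S a (ξ * d) = vv S a ξ * d := by
  rw [vv_apply, vv_apply, ← mul_assoc, S_A hS.zl (a * ξ) d hd, sub_mul, mul_assoc]

/-- the values of `v` are approximated by `c ξ - μ c` -/
lemma vv_approx (hS : ALM D S) (a ξ : D.T) (μ : ℂ) (ε : ℝ) (hε : 0 < ε) :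
    ∃ c : D.T, ‖vv S a ξ - (c * ξ - μ • c)‖ < ε := by
  obtain ⟨w, ⟨x, rfl⟩, hx⟩ := Metric.mem_closure_iff.1 (hS (a * ξ - μ • a)) ε hε
  refine ⟨x * a - S a, ?_⟩
  rw [dist_eq_norm] at hx
  have : vv S a ξ - ((x * a - S a) * ξ - μ • (x * a - S a)) =
      S (a * ξ - μ • a) - x * (a * ξ - μ • a) := by
    rw [vv_apply, map_sub, map_smul, mul_sub, sub_mul, mul_smul_comm, smul_sub, mul_assoc]
    abel
  rw [this]
  exact hx

end Pool.Agent.H668R3.LLM
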