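import Pool.Agent.H668R3.LLM.PU

/-! The zero product lemma for bilinear maps on a C*-algebra -/

set_option autoImplicit false

open Filter Topology Finset

noncomputable section

namespace Pool.Agent.H668R3.LLM

variable {B : Type*} [CStarAlgebra B]

/-- the multipliers of `A` in `B` -/
def Mlt (A : NonUnitalStarSubalgebra ℂ B) : StarSubalgebra ℂ B where
  carrier := {p | ∀ b ∈ A, b * p ∈ A ∧ p * b ∈ A}
  mul_mem' := by
    intro p q hp hq b hb
    refine ⟨?_, ?_⟩
    · rw [← mul_assoc]; exact (hq _ (hp b hb).1).1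
    · rw [mul_assoc]; exact (hp _ (hq b hb).2).2
  one_mem' := by intro b hb; rw [mul_one, one_mul]; exact ⟨hb, hb⟩
  add_mem' := by
    intro p q hp hq b hb
    rw [mul_add, add_mul]
    exact ⟨add_mem (hp b hb).1 (hq b hb).1, add_mem (hp b hb).2 (hq b hb).2⟩
  zero_mem' := by
    intro b _
    rw [mul_zero, zero_mul]; exact ⟨zero_mem _, zero_mem _⟩
  algebraMap_mem' := by
    intro r b hb
    rw [Algebra.algebraMap_eq_smul_one, mul_smul_comm, smul_mul_assoc, mul_one, one_mul]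
    exact ⟨SMulMemClass.smul_mem r hb, SMulMemClass.smul_mem r hb⟩
  star_mem' := by
    intro p hp b hb
    have h := hp (star b) (star_mem hb)
    constructor
    · have := star_mem h.2
      rwa [star_mul, star_star] at this
    · have := star_mem h.1
      rwa [star_mul, star_star] at this

lemma Mlt_closed (A : NonUnitalStarSubalgebra ℂ B) (hA : IsClosed (A : Set B)) :
    IsClosed ((Mlt A : StarSubalgebra ℂ B) : Set B) := by
  have : ((Mlt A : StarSubalgebra ℂ B) : Set B) =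
      ⋂ b ∈ A, ((fun p => b * p) ⁻¹' (A : Set B)) ∩ ((fun p => p * b) ⁻¹' (A : Set B)) := by
    ext p
    simp only [Set.mem_iInter, Set.mem_inter_iff, Set.mem_preimage, SetLike.mem_coe]
    rfl
  rw [this]
  refine isClosed_biInter fun b _ => ?_
  exact (hA.preimage (by fun_prop)).inter (hA.preimage (by fun_prop))

lemma le_Mlt (A : NonUnitalStarSubalgebra ℂ B) {a : B} (ha : a ∈ A) : a ∈ Mlt A :=
  fun _ hb => ⟨mul_mem hb ha, mul_mem ha hb⟩

lemma cfc_Mlt (A : NonUnitalStarSubalgebra ℂ B) (hA : IsClosed (A : Set B)) (f : ℝ → ℝ)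
    {d : B} (hd : d ∈ Mlt A) : cfc f d ∈ Mlt A := by
  have := Mlt_closed A hA
  exact cfc_mem (𝕜' := ℂ) f hd

lemma spec_mem {d : B} {x : ℝ} (hx : x ∈ spectrum ℝ d) : |x| ≤ ‖d‖ := by
  rcases subsingleton_or_nontrivial B with hB | hB
  · exact absurd hx (by
      rw [spectrum.mem_iff]; push Not
      exact isUnit_of_subsingleton _)
  · have := spectrum.norm_le_norm_of_mem hx
    rwa [Real.norm_eq_abs] at this

/-- the tent elements -/
def te (d : B) (r h : ℝ) (i : ℕ) : B := cfc (fun x : ℝ => tent ((x + r) / h) i) d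

lemma tent_cont (i : ℕ) : Continuous (fun u => tent u i) := by
  unfold tent
  exact (cl_cont.comp (by fun_prop)).sub (cl_cont.comp (by fun_prop))

lemma te_cont (r h : ℝ) (i : ℕ) : Continuous (fun x : ℝ => tent ((x + r) / h) i) :=
  (tent_cont i).comp (by fun_prop)

lemma te_mul {d : B} (r h : ℝ) {i j : ℕ} (hij : i + 2 ≤ j) :
    te d r h i * te d r h j = 0 := by
  unfold te
  rw [← cfc_mul _ _ d (te_cont r h i).continuousOn (te_cont r h j).continuousOn]
  have : (fun x : ℝ => tent ((x + r) / h) i * tent ((x + r) / h) j) = fun _ => 0 := by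
    funext x
    by_contra hne
    obtain ⟨h1, h2⟩ := mul_ne_zero_iff.1 hne
    have h3 := tent_zero h1
    have h4 := tent_zero h2
    have h5 : ((i + 2 : ℕ) : ℝ) ≤ (j : ℝ) := by exact_mod_cast hij
    push_cast at h5
    linarith [h3.2, h4.1]
  rw [this, cfc_const_zero]

lemma te_mul' {d : B} (r h : ℝ) {i j : ℕ} (hij : i + 2 ≤ j) :
    te d r h j * te d r h i = 0 := by
  unfold te
  rw [← cfc_mul _ _ d (te_cont r h j).continuousOn (te_cont r h i).continuousOn]
  have : (fun x : ℝ => tent ((x + r) / h) j * tent ((x + r) / h) i) = fun _ => 0 := by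
    funext x
    by_contra hne
    obtain ⟨h1, h2⟩ := mul_ne_zero_iff.1 hne
    have h3 := tent_zero h1
    have h4 := tent_zero h2
    have h5 : ((i + 2 : ℕ) : ℝ) ≤ (j : ℝ) := by exact_mod_cast hij
    push_cast at h5
    linarith [h4.2, h3.1]
  rw [this, cfc_const_zero]

lemma te_sum {d : B} (hd : IsSelfAdjoint d) (r : ℝ) (hr : ‖d‖ ≤ r) (hr0 : 0 < r) (N : ℕ)
    (hN : 0 < N) : ∑ i ∈ range (N + 1), te d r (2 * r / N) i = 1 := by
  unfold te
  rw [← cfc_sum _ d _ (fun i _ => (te_cont r _ i).continuousOn)]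
  rw [← cfc_const_one ℝ d]
  apply cfc_congr
  intro x hx
  have h1 := abs_le.1 ((spec_mem hx).trans hr)
  have hN' : (0:ℝ) < N := by exact_mod_cast hN
  simp only [Finset.sum_apply]
  apply tent_sum
  · apply div_nonneg (by linarith) (by positivity)
  · rw [div_le_iff₀ (by positivity)]
    field_simp
    linarith [h1.2]

lemma te_sum' {d : B} (hd : IsSelfAdjoint d) (r : ℝ) (hr : ‖d‖ ≤ r) (hr0 : 0 < r) (N : ℕ)
    (hN : 0 < N) : ∑ i ∈ range (N + 1), ((-r + i * (2 * r / N) : ℝ) : ℂ) •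
      te d r (2 * r / N) i = d := by
  unfold te
  have hN' : (0:ℝ) < N := by exact_mod_cast hN
  have e1 : ∀ i ∈ range (N + 1), ((-r + i * (2 * r / N) : ℝ) : ℂ) •
      cfc (fun x : ℝ => tent ((x + r) / (2 * r / N)) i) d =
      cfc (fun x : ℝ => (-r + i * (2 * r / N)) * tent ((x + r) / (2 * r / N)) i) d := by
    intro i _
    rw [cfc_const_mul _ _ d (te_cont r _ i).continuousOn]
    exact (Complex.coe_smul _ _)
  rw [Finset.sum_congr rfl e1, ← cfc_sum (fun (i : ℕ) (x : ℝ) => (-r + i * (2 * r / N)) *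
    tent ((x + r) / (2 * r / N)) i) d _ (fun i _ =>
    (continuous_const.mul (te_cont r _ i)).continuousOn)]
  conv_rhs => rw [← cfc_id ℝ d]
  apply cfc_congr
  intro x hx
  have h1 := abs_le.1 ((spec_mem hx).trans hr)
  simp only [Finset.sum_apply, id]
  have hu0 : 0 ≤ (x + r) / (2 * r / N) := div_nonneg (by linarith) (by positivity)
  have huN : (x + r) / (2 * r / N) ≤ N := by
    rw [div_le_iff₀ (by positivity)]
    field_simp
    linarith [h1.2]
  have e2 := tent_sum _ N hu0 huN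
  have e3 := tent_sum' _ N hu0 huN
  have e4 : ∑ i ∈ range (N + 1), (-r + i * (2 * r / N)) * tent ((x + r) / (2 * r / N)) i =
      -r * ∑ i ∈ range (N + 1), tent ((x + r) / (2 * r / N)) i +
      (2 * r / N) * ∑ i ∈ range (N + 1), (i : ℝ) * tent ((x + r) / (2 * r / N)) i := by
    rw [Finset.mul_sum, Finset.mul_sum, ← Finset.sum_add_distrib]
    refine Finset.sum_congr rfl fun i _ => ?_
    ring
  rw [e4, e2, e3]
  field_simp
  ring

lemma te_norm {d : B} (r : ℝ) (hr : ‖d‖ ≤ r) (hr0 : 0 < r) (N : ℕ)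
    (hN : 0 < N) (J : Finset ℕ) (hJ : J ⊆ range (N + 1)) :
    ‖∑ i ∈ J, te d r (2 * r / N) i‖ ≤ 1 := by
  unfold te
  rw [← cfc_sum _ d _ (fun i _ => (te_cont r _ i).continuousOn)]
  apply norm_cfc_le zero_le_one
  intro x hx
  have h1 := abs_le.1 ((spec_mem hx).trans hr)
  have hN' : (0:ℝ) < N := by exact_mod_cast hN
  simp only [Finset.sum_apply]
  have hu0 : 0 ≤ (x + r) / (2 * r / N) := div_nonneg (by linarith) (by positivity)
  have huN : (x + r) / (2 * r / N) ≤ N := by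
    rw [div_le_iff₀ (by positivity)]
    field_simp
    linarith [h1.2]
  rw [Real.norm_eq_abs, abs_of_nonneg (Finset.sum_nonneg fun i _ => tent_nonneg _ _)]
  rw [← tent_sum _ N hu0 huN]
  exact Finset.sum_le_sum_of_subset_of_nonneg hJ (fun i _ _ => tent_nonneg _ _)

variable {Z : Type*} [NormedAddCommGroup Z] [NormedSpace ℂ Z]

/-- the sandwiched form -/
def sand (A : NonUnitalStarSubalgebra ℂ B) (ψ : A →ₗ[ℂ] A →ₗ[ℂ] Z) (b c : A) :
    Mlt A →ₗ[ℂ] Mlt A →ₗ[ℂ] Z :=
  LinearMap.mk₂ ℂ (fun p q => ψ ⟨b * p, (p.2 b b.2).1⟩ ⟨q * c, (q.2 c c.2).2⟩)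
    (by
      intro p p' q
      rw [← LinearMap.add_apply, ← map_add]
      congr 2
      apply Subtype.ext
      simp [mul_add])
    (by
      intro r p q
      rw [← LinearMap.smul_apply, ← map_smul]
      congr 2
      apply Subtype.ext
      simp)
    (by
      intro p q q'
      rw [← map_add]
      congr 1
      apply Subtype.ext
      simp [add_mul])
    (by
      intro r p q
      rw [← map_smul]
      congr 1
      apply Subtype.ext
      simp)

lemma zp_sa (A : NonUnitalStarSubalgebra ℂ B) (hA : IsClosed (A : Set B))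
    (ψ : A →ₗ[ℂ] A →ₗ[ℂ] Z) (K : ℝ) (hK : ∀ b c : A, ‖ψ b c‖ ≤ K * ‖b‖ * ‖c‖)
    (h0 : ∀ b c : A, b * c = 0 → ψ b c = 0) (b c d : A) (hd : IsSelfAdjoint d) :
    ψ (b * d) c = ψ b (d * c) := by
  have hdB : IsSelfAdjoint (d : B) := by
    have := congrArg (Subtype.val : A → B) hd.star_eq
    exact this
  have hdM : (d : B) ∈ Mlt A := le_Mlt A d.2
  have hK0 : ∀ b c : A, ‖ψ b c‖ ≤ |K| * ‖b‖ * ‖c‖ := by
    intro b c
    refine (hK b c).trans ?_
    gcongr
    exact le_abs_self K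
  set r : ℝ := ‖(d : B)‖ + 1 with hr
  have hr1 : ‖(d : B)‖ ≤ r := by linarith
  have hr0 : 0 < r := by have := norm_nonneg (d : B); linarith
  have key : ∀ N : ℕ, 0 < N → ‖sand A ψ b c ⟨d, hdM⟩ 1 - sand A ψ b c 1 ⟨d, hdM⟩‖ ≤
      6 * (2 * r / N) * (|K| * ‖b‖ * ‖c‖) := by
    intro N hN
    have hN' : (0:ℝ) < N := by exact_mod_cast hN
    let p : ℕ → Mlt A := fun i => ⟨te (d : B) r (2 * r / N) i, cfc_Mlt A hA _ hdM⟩
    have hcoe : ∀ J : Finset ℕ, ((∑ i ∈ J, p i : Mlt A) : B) = ∑ i ∈ J, te (d:B) r (2 * r / N) i :=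
      fun J => by
        rw [AddSubmonoidClass.coe_finsetSum]
    apply pu_alg (sand A ψ b c) p N r (2 * r / N) _ 1 ⟨d, hdM⟩ (by positivity)
    · apply Subtype.ext
      rw [hcoe]
      exact te_sum hdB r hr1 hr0 N hN
    · apply Subtype.ext
      rw [AddSubmonoidClass.coe_finsetSum]
      exact te_sum' hdB r hr1 hr0 N hN
    · intro i j hij
      apply h0
      apply Subtype.ext
      change ((b : B) * te (d:B) r (2 * r / N) i) * (te (d:B) r (2 * r / N) j * (c:B)) = 0
      rw [mul_assoc, ← mul_assoc (te (d:B) r (2 * r / N) i), te_mul r _ hij, zero_mul, mul_zero]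
    · intro i j hij
      apply h0
      apply Subtype.ext
      change ((b : B) * te (d:B) r (2 * r / N) j) * (te (d:B) r (2 * r / N) i * (c:B)) = 0
      rw [mul_assoc, ← mul_assoc (te (d:B) r (2 * r / N) j), te_mul' r _ hij, zero_mul, mul_zero]
    · intro J J' hJ hJ'
      refine (hK0 _ _).trans ?_
      have e1 : ‖(⟨(b:B) * ((∑ i ∈ J, p i : Mlt A) : B), ((∑ i ∈ J, p i : Mlt A).2 b b.2).1⟩ : A)‖
          ≤ ‖b‖ := by
        change ‖(b:B) * ((∑ i ∈ J, p i : Mlt A) : B)‖ ≤ ‖(b : B)‖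
        refine (norm_mul_le _ _).trans ?_
        rw [hcoe]
        have := te_norm r hr1 hr0 N hN J hJ
        nlinarith [norm_nonneg (b : B)]
      have e2 : ‖(⟨((∑ i ∈ J', p i : Mlt A) : B) * (c:B), ((∑ i ∈ J', p i : Mlt A).2 c c.2).2⟩ : A)‖
          ≤ ‖c‖ := by
        change ‖((∑ i ∈ J', p i : Mlt A) : B) * (c:B)‖ ≤ ‖(c : B)‖
        refine (norm_mul_le _ _).trans ?_
        rw [hcoe]
        have := te_norm r hr1 hr0 N hN J' hJ'
        nlinarith [norm_nonneg (c : B)]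
      gcongr
  have hz : ‖sand A ψ b c ⟨d, hdM⟩ 1 - sand A ψ b c 1 ⟨d, hdM⟩‖ ≤ 0 := by
    have hlim : Tendsto (fun N : ℕ => 6 * (2 * r / N) * (|K| * ‖b‖ * ‖c‖)) atTop (𝓝 0) := by
      have := (tendsto_const_div_atTop_nhds_zero_nat (2 * r)).const_mul 6
      have := this.mul_const (|K| * ‖b‖ * ‖c‖)
      simpa using this
    refine ge_of_tendsto hlim ?_
    filter_upwards [eventually_gt_atTop 0] with N hN using key N hN
  have hz' := norm_le_zero_iff.1 hz
  rw [sub_eq_zero] at hz'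
  have e3 : sand A ψ b c ⟨d, hdM⟩ 1 = ψ (b * d) c := by
    change ψ ⟨(b:B) * (d:B), _⟩ ⟨(1:B) * (c:B), _⟩ = _
    congr 1
    apply Subtype.ext
    exact one_mul _
  have e4 : sand A ψ b c 1 ⟨d, hdM⟩ = ψ b (d * c) := by
    change ψ ⟨(b:B) * (1:B), _⟩ ⟨(d:B) * (c:B), _⟩ = _
    have : (⟨(b:B) * (1:B), ((1 : Mlt A).2 b b.2).1⟩ : A) = b := by
      apply Subtype.ext
      exact mul_one _
    rw [this]
    rfl
  rw [← e3, ← e4, hz']

/-- the zero product lemma -/
theorem zp (A : NonUnitalStarSubalgebra ℂ B) (hA : IsClosed (A : Set B))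
    (ψ : A →ₗ[ℂ] A →ₗ[ℂ] Z) (K : ℝ) (hK : ∀ b c : A, ‖ψ b c‖ ≤ K * ‖b‖ * ‖c‖)
    (h0 : ∀ b c : A, b * c = 0 → ψ b c = 0) (b c d : A) :
    ψ (b * d) c = ψ b (d * c) := by
  have h1 : (realPart d : A) + Complex.I • (imaginaryPart d : A) = d :=
    realPart_add_I_smul_imaginaryPart d
  rw [← h1, mul_add, add_mul, mul_smul_comm, smul_mul_assoc, map_add, map_add, map_smul, map_smul,
    LinearMap.add_apply, LinearMap.smul_apply,
    zp_sa A hA ψ K hK h0 b c _ (realPart d).2, zp_sa A hA ψ K hK h0 b c _ (imaginaryPart d).2]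

end Pool.Agent.H668R3.LLM
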